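import Mathlib
import Pool.Agent.H604.LD.StmG
import Pool.Agent.H140.E.Stm
import Pool.Agent.H251.SP.TIIa

/-!
# Mixed Chowla over `F_q[X]`, `q` even (helper140): statements of the parts

`f` separable with the square root property (`Pool.Agent.H140.E.all`), times inseparable factors
`α A(T) ^ 2 + c` with `α c` not a square.  On the directions `a ↦ a + μ (N t) ^ 2` the Liouville
function of an inseparable factor is a polynomial phase of bounded degree (`S_flat`); the inequality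
of Gowers, Cauchy and Schwarz (`S_gm`) leaves the product of translates of `f` (`S_sep`).
-/

set_option autoImplicit false

namespace Pool.Agent.H140.MX

open Polynomial
open scoped Classical
open Pool.Agent.H985.Chow (mob lc)
open Pool.Agent.H985.KP (sg)
open Pool.Agent.H694.Typ (Mn)
open Pool.Agent.H140.Q (liou)
open Pool.Agent.H251.SP.TII (Pl)

/-- The function `y` of the vertices of a cube has degree at most `D`: all the derivatives of order
greater than `D` vanish (characteristic two). -/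
def CDeg {R : Type} [AddCommMonoid R] {k : ℕ} (D : ℕ) (y : Finset (Fin k) → R) : Prop :=
  ∀ B : Finset (Fin k), D < B.card → ∑ A ∈ B.powerset, y A = 0

/-- **Task MX-CD.**  Degrees of functions on the cube in characteristic two. -/
def S_cd : Prop :=
  ∀ (R : Type) [CommRing R] [CharP R 2] (k : ℕ),
    (∀ (r : R), CDeg (k := k) 0 (fun _ => r)) ∧
    (∀ v : Fin k → R, CDeg (k := k) 1 (fun A => ∑ j ∈ A, v j)) ∧
    (∀ (D D' : ℕ) (y : Finset (Fin k) → R), CDeg D y → D ≤ D' → CDeg D' y) ∧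
    (∀ (D : ℕ) (y z : Finset (Fin k) → R), CDeg D y → CDeg D z → CDeg D (fun A => y A + z A)) ∧
    (∀ (D E : ℕ) (y z : Finset (Fin k) → R), CDeg D y → CDeg E z →
      CDeg (D + E) (fun A => y A * z A)) ∧
    (∀ (D : ℕ) (y : Finset (Fin k) → R), CDeg D y → D < k → ∑ A : Finset (Fin k), y A = 0)

/-- **Task MX-VAN.**  The phase at infinity has bounded degree. -/
def S_van : Prop :=
  ∀ (K : Type) [Field K] [CharP K 2] (k D m G d : ℕ) (b : K[X]) (y : Finset (Fin k) → K[X]),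
    b.Monic → (∀ A, (y A).Monic ∧ (y A).natDegree = d) → CDeg D y →
    (∀ A, (y A - y ∅).natDegree + G ≤ d) → 2 * d ≤ m * G → D * (m + 2) < k →
    ∑ A : Finset (Fin k), lc (y A * b ^ 2) (X * derivative (y A) ^ 3) = 0

/-- **Task MX-FLAT.**  The Liouville function of an inseparable factor is a polynomial phase on the
directions `μ (N t) ^ 2`. -/
def S_flat : Prop :=
  ∀ (K : Type) [Field K] [Fintype K] [CharP K 2] (α c μ : K[X]) (A : K[X][X]),
    α ≠ 0 → ¬ IsSquare (α * c) →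
    ∃ (k : ℕ) (N : K[X]), N ≠ 0 ∧ ∀ M : ℕ, ∃ n₀ : ℕ, ∀ n : ℕ, n₀ ≤ n → ∀ a ∈ Mn K n,
      ∀ t : Fin k → K[X], (∀ j, (t j).degree < (M : WithBot ℕ)) →
        ∏ B : Finset (Fin k),
          (liou (α * (A.eval (a + μ * (N * ∑ j ∈ B, t j) ^ 2)) ^ 2 + c) : ℝ) = 1

/-- **Task MX-GM.**  The inequality of Gowers, Cauchy and Schwarz for the monic polynomials of degree
`n` and the directions `μ (N t) ^ 2`, `deg t < M`. -/
def S_gm : Prop :=
  ∀ (K : Type) [Field K] [Fintype K] [CharP K 2] (k M : ℕ) (μ N : K[X]), ∃ n₀ : ℕ,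
    ∀ n : ℕ, n₀ ≤ n → ∀ F : K[X] → ℝ, (∀ a, |F a| ≤ 1) →
      |(∑ a ∈ Mn K n, F a) / (Fintype.card K : ℝ) ^ n| ^ (2 ^ k) ≤
        (∑ t ∈ Fintype.piFinset (fun _ : Fin k => Pl K M),
          |(∑ a ∈ Mn K n, ∏ B : Finset (Fin k), F (a + μ * (N * ∑ j ∈ B, t j) ^ 2)) /
            (Fintype.card K : ℝ) ^ n|) / ((Fintype.card K : ℝ) ^ M) ^ k

/-- The square root property (as in `Pool.Agent.H140.E.all`). -/
def SqR {K : Type} [Field K] (f : K[X][X]) (μ : K[X]) : Prop :=
  ∀ θ : AlgebraicClosure (RatFunc K), aeval θ f = 0 →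
    ∃ (s : RatFunc K) (σ : AlgebraicClosure (RatFunc K)), IsSeparable (RatFunc K) σ ∧
      σ ^ 2 = algebraMap K[X] (AlgebraicClosure (RatFunc K)) μ * θ +
        algebraMap (RatFunc K) (AlgebraicClosure (RatFunc K)) s

/-- **Task MX-SEP.**  The product of the translates of `f`. -/
def S_sep : Prop :=
  ∀ (K : Type) [Field K] [Fintype K] [CharP K 2] (f : K[X][X]) (μ N : K[X]) (k : ℕ),
    0 < f.natDegree → (f.map (algebraMap K[X] (RatFunc K))).Separable → μ ≠ 0 → N ≠ 0 → SqR f μ →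
    ∃ Z : Finset K[X], ∀ t : Fin k → K[X],
      (∀ B : Finset (Fin k), B.Nonempty → ∑ j ∈ B, t j ∉ Z) →
      0 < (∏ B : Finset (Fin k), f.comp (X + C (μ * (N * ∑ j ∈ B, t j) ^ 2))).natDegree ∧
      ((∏ B : Finset (Fin k), f.comp (X + C (μ * (N * ∑ j ∈ B, t j) ^ 2))).map
        (algebraMap K[X] (RatFunc K))).Separable ∧
      SqR (∏ B : Finset (Fin k), f.comp (X + C (μ * (N * ∑ j ∈ B, t j) ^ 2))) μ

/-- **Task MX-CNT.**  Few tuples are exceptional. -/
def S_cnt : Prop :=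
  ∀ (K : Type) [Field K] [Fintype K] (k M : ℕ) (Z : Finset K[X]),
    (((Fintype.piFinset (fun _ : Fin k => Pl K M)).filter
      (fun t => ∃ B : Finset (Fin k), B.Nonempty ∧ ∑ j ∈ B, t j ∈ Z)).card : ℝ) *
        (Fintype.card K : ℝ) ^ M ≤ 2 ^ k * Z.card * ((Fintype.card K : ℝ) ^ M) ^ k

end Pool.Agent.H140.MX
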