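import Mathlib
import Pool.Agent.H140.MX.Stm
import Pool.Agent.H140.E.All
import Pool.Agent.H140.E.Fin

/-!
# Mixed Chowla over `F_q[X]`, `q` even (helper140): assembly
-/

set_option autoImplicit false

namespace Pool.Agent.H140.MX

open Polynomial Finset
open scoped Classical
open Pool.Agent.H985.Chow (MD)
open Pool.Agent.H694.Typ (Mn mem_Mn card_Mn)
open Pool.Agent.H140.Q (liou)
open Pool.Agent.H140.Q.FinM (liou_mul liou_zero)
open Pool.Agent.H140.E.FinE (liou_prod)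
open Pool.Agent.H251.SP.TII (Pl mem_Pl card_Pl)

section flat

variable {K : Type} [Field K] [Fintype K]

/-- The function `F` is a polynomial phase of degree less than `k` on the directions `μ (N t) ^ 2`,
`deg t < M`, at the monic polynomials of degree `n`. -/
def FlatAt (μ : K[X]) (F : K[X] → ℝ) (k : ℕ) (N : K[X]) (M n : ℕ) : Prop :=
  ∀ a ∈ Mn K n, ∀ t : Fin k → K[X], (∀ j, (t j).degree < (M : WithBot ℕ)) →
    ∏ B : Finset (Fin k), F (a + μ * (N * ∑ j ∈ B, t j) ^ 2) = 1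

/-- The same for all `M` and all large `n`. -/
def Flat (μ : K[X]) (F : K[X] → ℝ) (k : ℕ) (N : K[X]) : Prop :=
  ∀ M : ℕ, ∃ n₀ : ℕ, ∀ n : ℕ, n₀ ≤ n → FlatAt μ F k N M n

theorem char2 [CharP K 2] (x y : K[X]) : (x + y) ^ 2 = x ^ 2 + y ^ 2 := by
  have : CharP K[X] 2 := inferInstance
  exact add_pow_char (R := K[X]) x y 2

/-- adding a small direction -/
theorem add_mem (μ N : K[X]) (M : ℕ) : ∃ n₁ : ℕ, ∀ n : ℕ, n₁ ≤ n → ∀ a ∈ Mn K n, ∀ t : K[X],
    t.degree < (M : WithBot ℕ) → a + μ * (N * t) ^ 2 ∈ Mn K n := by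
  refine ⟨μ.natDegree + 2 * (N.natDegree + M) + 1, fun n hn a ha t ht => ?_⟩
  rw [mem_Mn] at ha ⊢
  have h1 : t.natDegree ≤ M := by
    apply natDegree_le_of_degree_le
    exact ht.le
  have h2 : (μ * (N * t) ^ 2).natDegree < n := by
    have e1 := natDegree_mul_le (p := μ) (q := (N * t) ^ 2)
    have e2 := natDegree_pow_le (p := N * t) (n := 2)
    have e3 := natDegree_mul_le (p := N) (q := t)
    omega
  have h3 : (μ * (N * t) ^ 2).degree < a.degree := by
    rw [degree_eq_natDegree ha.1.ne_zero, ha.2]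
    exact (degree_le_natDegree).trans_lt (by exact_mod_cast h2)
  exact ⟨ha.1.add_of_left h3, by rw [natDegree_add_eq_left_of_degree_lt h3, ha.2]⟩

/-- The subsets of `Fin (k + 1)`. -/
theorem prod_fin_succ {k : ℕ} (G : Finset (Fin (k + 1)) → ℝ) :
    ∏ B : Finset (Fin (k + 1)), G B =
      (∏ B : Finset (Fin k), G (B.map (Fin.succEmb k))) *
        ∏ B : Finset (Fin k), G (insert 0 (B.map (Fin.succEmb k))) := by
  have h1 : (Finset.univ : Finset (Finset (Fin (k + 1)))) = (Finset.univ : Finset (Fin (k + 1))).powerset := by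
    ext; simp
  have h2 : (Finset.univ : Finset (Fin (k + 1))) =
      insert 0 ((Finset.univ : Finset (Fin k)).map (Fin.succEmb k)) := by
    ext i
    simp only [mem_univ, mem_insert, mem_map, true_and, true_iff]
    rcases Fin.eq_zero_or_eq_succ i with h | ⟨j, h⟩
    · exact Or.inl h
    · exact Or.inr ⟨j, h.symm⟩
  have h0 : (0 : Fin (k + 1)) ∉ (Finset.univ : Finset (Fin k)).map (Fin.succEmb k) := by
    simp only [mem_map, not_exists, not_and, mem_univ, true_implies]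
    intro j hj
    exact Fin.succ_ne_zero j hj
  have h3 : ((Finset.univ : Finset (Fin k)).map (Fin.succEmb k)).powerset =
      (Finset.univ : Finset (Finset (Fin k))).map
        ⟨fun B => B.map (Fin.succEmb k), Finset.map_injective _⟩ := by
    ext B
    simp only [mem_powerset, mem_map, mem_univ, true_and, Function.Embedding.coeFn_mk]
    constructor
    · intro hB
      obtain ⟨u, -, hu⟩ := Finset.subset_map_iff.1 hB
      exact ⟨u, hu.symm⟩
    · rintro ⟨u, rfl⟩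
      exact Finset.map_subset_map.2 (Finset.subset_univ _)
  rw [h1, h2, Finset.prod_powerset_insert h0, h3, Finset.prod_map, Finset.prod_map]
  rfl

theorem flat_succ [CharP K 2] {μ : K[X]} {F : K[X] → ℝ} {k : ℕ} {N : K[X]} {M n : ℕ}
    (h1 : ∀ a ∈ Mn K n, ∀ t : K[X], t.degree < (M : WithBot ℕ) → a + μ * (N * t) ^ 2 ∈ Mn K n)
    (h0 : FlatAt μ F k N M n) : FlatAt μ F (k + 1) N M n := by
  intro a ha t ht
  rw [prod_fin_succ]
  have e1 : ∏ B : Finset (Fin k), F (a + μ * (N * ∑ j ∈ B.map (Fin.succEmb k), t j) ^ 2) = 1 := by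
    rw [← h0 a ha (fun j => t j.succ) (fun j => ht _)]
    refine Finset.prod_congr rfl fun B _ => ?_
    rw [Finset.sum_map]
    rfl
  have e2 : ∏ B : Finset (Fin k),
      F (a + μ * (N * ∑ j ∈ insert 0 (B.map (Fin.succEmb k)), t j) ^ 2) = 1 := by
    rw [← h0 (a + μ * (N * t 0) ^ 2) (h1 a ha (t 0) (ht 0)) (fun j => t j.succ) (fun j => ht _)]
    refine Finset.prod_congr rfl fun B _ => ?_
    have h0' : (0 : Fin (k + 1)) ∉ B.map (Fin.succEmb k) := by
      simp only [mem_map, not_exists, not_and]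
      intro j _ hj
      exact Fin.succ_ne_zero j hj
    rw [Finset.sum_insert h0', Finset.sum_map, mul_add, char2, mul_add, add_assoc]
    rfl
  rw [e1, e2, mul_one]

theorem flatAt_mono [CharP K 2] {μ : K[X]} {F : K[X] → ℝ} {k : ℕ} {N : K[X]} {M n : ℕ}
    (h1 : ∀ a ∈ Mn K n, ∀ t : K[X], t.degree < (M : WithBot ℕ) → a + μ * (N * t) ^ 2 ∈ Mn K n)
    (h : FlatAt μ F k N M n) {k' : ℕ} (hk : k ≤ k') : FlatAt μ F k' N M n := by
  induction k', hk using Nat.le_induction with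
  | base => exact h
  | succ m _ ih => exact flat_succ h1 ih

theorem flat_mono [CharP K 2] {μ : K[X]} {F : K[X] → ℝ} {k : ℕ} {N : K[X]} (h : Flat μ F k N)
    {k' : ℕ} (hk : k ≤ k') : Flat μ F k' N := by
  intro M
  obtain ⟨n₀, h0⟩ := h M
  obtain ⟨n₁, h1⟩ := add_mem μ N M
  exact ⟨max n₀ n₁, fun n hn => flatAt_mono (h1 n ((le_max_right _ _).trans hn))
    (h0 n ((le_max_left _ _).trans hn)) hk⟩

theorem flat_mul_dir {μ : K[X]} {F : K[X] → ℝ} {k : ℕ} {N : K[X]} (h : Flat μ F k N)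
    (N' : K[X]) : Flat μ F k (N * N') := by
  intro M
  obtain ⟨n₀, h0⟩ := h (M + N'.natDegree + 1)
  refine ⟨n₀, fun n hn a ha t ht => ?_⟩
  rw [← h0 n hn a ha (fun j => N' * t j) (fun j => ?_)]
  · refine Finset.prod_congr rfl fun B _ => ?_
    rw [mul_assoc, Finset.mul_sum]
  · have h1 : (t j).natDegree ≤ M := natDegree_le_of_degree_le (ht j).le
    have h2 := natDegree_mul_le (p := N') (q := t j)
    refine (degree_le_natDegree).trans_lt ?_
    have h3 : (N' * t j).natDegree < M + N'.natDegree + 1 := by omega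
    exact_mod_cast h3

theorem flat_prod [CharP K 2] {μ : K[X]} {ι : Type} (s : Finset ι) (F : ι → K[X] → ℝ)
    (h : ∀ i ∈ s, ∃ (k : ℕ) (N : K[X]), N ≠ 0 ∧ Flat μ (F i) k N) :
    ∃ (k : ℕ) (N : K[X]), N ≠ 0 ∧ Flat μ (fun a => ∏ i ∈ s, F i a) k N := by
  induction s using Finset.induction_on with
  | empty =>
    refine ⟨0, 1, one_ne_zero, fun M => ⟨0, fun n _ a _ t _ => ?_⟩⟩
    simp
  | insert i s hi ih =>
    obtain ⟨k, N, hN, hf⟩ := ih fun j hj => h j (mem_insert_of_mem hj)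
    obtain ⟨k', N', hN', hf'⟩ := h i (mem_insert_self _ _)
    refine ⟨max k k', N * N', mul_ne_zero hN hN', fun M => ?_⟩
    obtain ⟨n₀, h0⟩ := flat_mul_dir (flat_mono hf (le_max_left k k')) N' M
    obtain ⟨n₁, h1⟩ := flat_mul_dir (flat_mono hf' (le_max_right k k')) N M
    refine ⟨max n₀ n₁, fun n hn a ha t ht => ?_⟩
    have e0 := h0 n ((le_max_left _ _).trans hn) a ha t ht
    have e1 := h1 n ((le_max_right _ _).trans hn) a ha t ht
    rw [mul_comm N' N] at e1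
    calc _ = (∏ B : Finset (Fin (max k k')), F i (a + μ * (N * N' * ∑ j ∈ B, t j) ^ 2)) *
          ∏ B : Finset (Fin (max k k')),
            ∏ i ∈ s, F i (a + μ * (N * N' * ∑ j ∈ B, t j) ^ 2) := by
            rw [← Finset.prod_mul_distrib]
            refine Finset.prod_congr rfl fun B _ => ?_
            exact Finset.prod_insert hi
      _ = 1 := by rw [e0, e1, mul_one]

end flat

section weight

variable {K : Type} [Field K]

/-- the sum over the vertices of the sums of the edges vanishes -/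
theorem cube_sum [CharP K 2] {k : ℕ} (hk : 2 ≤ k) (t : Fin k → K[X]) :
    ∑ B : Finset (Fin k), ∑ j ∈ B, t j = 0 := by
  have : CharP K[X] 2 := inferInstance
  have h1 : ∑ B : Finset (Fin k), ∑ j ∈ B, t j =
      ∑ j : Fin k, ∑ B : Finset (Fin k), if j ∈ B then t j else 0 := by
    rw [Finset.sum_comm]
    refine Finset.sum_congr rfl fun B _ => ?_
    rw [Finset.sum_ite_mem, Finset.univ_inter]
  rw [h1]
  refine Finset.sum_eq_zero fun j _ => ?_
  rw [← Finset.sum_filter, Finset.sum_const]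
  have h2 : ((Finset.univ : Finset (Finset (Fin k))).filter (fun B => j ∈ B)).card = 2 ^ (k - 1) := by
    have h3 : (Finset.univ : Finset (Finset (Fin k))).filter (fun B => j ∈ B) =
        ((Finset.univ.erase j).powerset).image (insert j) := by
      ext B
      simp only [mem_filter, mem_univ, true_and, mem_image, mem_powerset]
      constructor
      · intro hB
        exact ⟨B.erase j, Finset.erase_subset_erase _ (Finset.subset_univ _),
          Finset.insert_erase hB⟩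
      · rintro ⟨u, -, rfl⟩
        exact mem_insert_self _ _
    rw [h3, Finset.card_image_of_injOn, Finset.card_powerset,
      Finset.card_erase_of_mem (mem_univ j), Finset.card_univ, Fintype.card_fin]
    intro u hu v hv huv
    simp only [coe_powerset, Set.mem_preimage, Set.mem_powerset_iff, coe_subset] at hu hv
    have hju : j ∉ u := fun hj => by
      have := hu hj
      simp at this
    have hjv : j ∉ v := fun hj => by
      have := hv hj
      simp at this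
    have := congrArg (fun s => Finset.erase s j) huv
    simp only [Finset.erase_insert hju, Finset.erase_insert hjv] at this
    exact this
  rw [h2]
  obtain ⟨m, rfl⟩ : ∃ m, k = m + 2 := ⟨k - 2, by omega⟩
  rw [show m + 2 - 1 = m + 1 from by omega, pow_succ, mul_comm, mul_nsmul,
    show (2 : ℕ) • t j = 0 from CharTwo.two_nsmul (t j), smul_zero]

theorem cube_weight [CharP K 2] {μ : K[X]} {w : K[X] → ℝ}
    (hw : ∀ g, ∃ χ : AddChar K[X] ℝ, ∀ u, w (g + μ * u ^ 2) = w g * χ u) {k : ℕ} (hk : 2 ≤ k)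
    (a N : K[X]) (t : Fin k → K[X]) :
    ∏ B : Finset (Fin k), w (a + μ * (N * ∑ j ∈ B, t j) ^ 2) = w a ^ (2 ^ k) := by
  obtain ⟨χ, hχ⟩ := hw a
  have h1 : ∀ B : Finset (Fin k), w (a + μ * (N * ∑ j ∈ B, t j) ^ 2) =
      w a * χ (N * ∑ j ∈ B, t j) := fun B => hχ _
  rw [Finset.prod_congr rfl fun B _ => h1 B, Finset.prod_mul_distrib, Finset.prod_const,
    Finset.card_univ, Fintype.card_finset, Fintype.card_fin]
  have h2 : ∀ s : Finset (Finset (Fin k)), ∏ B ∈ s, χ (N * ∑ j ∈ B, t j) =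
      χ (∑ B ∈ s, N * ∑ j ∈ B, t j) := by
    intro s
    induction s using Finset.induction_on with
    | empty => simp
    | insert B s hB ih =>
      rw [Finset.prod_insert hB, Finset.sum_insert hB, AddChar.map_add_eq_mul, ih]
  rw [h2, ← Finset.mul_sum, cube_sum hk, mul_zero, AddChar.map_zero_eq_one, mul_one]

theorem pow_weight {μ : K[X]} {w : K[X] → ℝ}
    (hw : ∀ g, ∃ χ : AddChar K[X] ℝ, ∀ u, w (g + μ * u ^ 2) = w g * χ u) (m : ℕ) :
    ∀ g, ∃ χ : AddChar K[X] ℝ, ∀ u, w (g + μ * u ^ 2) ^ m = w g ^ m * χ u := by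
  intro g
  obtain ⟨χ, hχ⟩ := hw g
  refine ⟨χ ^ m, fun u => ?_⟩
  rw [hχ u, mul_pow, AddChar.pow_apply]

end weight

/-- The product of the values. -/
noncomputable def Gi {K : Type} [Field K] {r : ℕ} (α c : Fin r → K[X]) (A : Fin r → K[X][X])
    (a : K[X]) : ℝ :=
  ∏ i, (liou (α i * ((A i).eval a) ^ 2 + c i) : ℝ)

theorem liou_abs {K : Type} [Field K] (F : K[X]) : |(liou F : ℝ)| ≤ 1 := by
  unfold Pool.Agent.H140.Q.liou
  split_ifs
  · simp
  · push_cast
    rw [abs_pow, abs_neg, abs_one, one_pow]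

theorem MD_eq {K : Type} [Field K] [Fintype K] (n : ℕ) : MD K n = (Mn K n : Set K[X]) := by
  ext g
  rw [Finset.mem_coe, mem_Mn]
  rfl

/-- **Higher order uniformity** of `λ(f(g))`. -/
def S_gen : Prop :=
  ∀ (K : Type) [Field K] [Fintype K] [CharP K 2] (f : K[X][X]) (μ N : K[X]) (k : ℕ),
    0 < f.natDegree → (f.map (algebraMap K[X] (RatFunc K))).Separable → μ ≠ 0 → N ≠ 0 →
    SqR f μ → ∀ ε : ℝ, 0 < ε → ∃ M n₀ : ℕ, ∀ n : ℕ, n₀ ≤ n → ∀ w Ψ : K[X] → ℝ,
      (∀ g, |w g| ≤ 1) →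
      (∀ g, ∃ χ : AddChar K[X] ℝ, ∀ u, w (g + μ * u ^ 2) = w g * χ u) →
      (∀ g, |Ψ g| ≤ 1) → FlatAt μ Ψ k N M n →
      |∑ g ∈ Mn K n, w g * ((liou (f.eval g) : ℝ) * Ψ g)| ≤ ε * (Fintype.card K : ℝ) ^ n

theorem gen (hg : S_gm) (hs : S_sep) (hc : S_cnt) : S_gen := by
  intro K _ _ _ f μ N k₀ hd hsep hμ hN hr ε hε
  have hq1 : 1 < Fintype.card K := Fintype.one_lt_card
  have hq : (0 : ℝ) < (Fintype.card K : ℝ) := by exact_mod_cast (zero_lt_one.trans hq1)
  have hq1' : (1 : ℝ) < (Fintype.card K : ℝ) := by exact_mod_cast hq1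
  obtain ⟨k, hk⟩ : ∃ k : ℕ, k = max k₀ 2 := ⟨_, rfl⟩
  have hk2 : 2 ≤ k := by omega
  have hk0 : k₀ ≤ k := by omega
  obtain ⟨Z, hZ⟩ := hs K f μ N k hd hsep hμ hN hr
  -- the parameters
  obtain ⟨η, hη⟩ : ∃ η : ℝ, η = ε ^ (2 ^ k) := ⟨_, rfl⟩
  have hη0 : 0 < η := by rw [hη]; positivity
  obtain ⟨M, hM⟩ : ∃ M : ℕ, 2 ^ k * (Z.card : ℝ) / (η / 2) < (Fintype.card K : ℝ) ^ M :=
    pow_unbounded_of_one_lt _ hq1'
  have hqM : (0 : ℝ) < (Fintype.card K : ℝ) ^ M := by positivity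
  have hM' : 2 ^ k * (Z.card : ℝ) ≤ η / 2 * (Fintype.card K : ℝ) ^ M := by
    rw [div_lt_iff₀ (by positivity)] at hM
    linarith
  obtain ⟨n₁, h1⟩ := add_mem μ N M
  obtain ⟨n₂, h2⟩ := hg K k M μ N
  -- the separable part
  set T : Finset (Fin k → K[X]) := Fintype.piFinset (fun _ : Fin k => Pl K M) with hT
  set Bad : (Fin k → K[X]) → Prop := fun t => ∃ B : Finset (Fin k), B.Nonempty ∧ ∑ j ∈ B, t j ∈ Z
    with hBad
  have h3 : ∀ t : Fin k → K[X], ∃ n₃ : ℕ, ¬ Bad t → ∀ n : ℕ, n₃ ≤ n → ∀ w : K[X] → ℝ,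
      (∀ g, |w g| ≤ 1) →
      (∀ g, ∃ χ : AddChar K[X] ℝ, ∀ x, w (g + μ * x ^ 2) = w g * χ x) →
      |∑ g ∈ Mn K n, w g *
        (liou ((∏ B : Finset (Fin k), f.comp (X + C (μ * (N * ∑ j ∈ B, t j) ^ 2))).eval g) : ℝ)| ≤
          η / 2 * (Fintype.card K : ℝ) ^ n := by
    intro t
    by_cases ht : Bad t
    · exact ⟨0, fun h => absurd ht h⟩
    · have ht' : ∀ B : Finset (Fin k), B.Nonempty → ∑ j ∈ B, t j ∉ Z := by
        intro B hB hBZ
        exact ht ⟨B, hB, hBZ⟩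
      obtain ⟨e1, e2, e3⟩ := hZ t ht'
      obtain ⟨n₃, h4⟩ := Pool.Agent.H140.E.all K _ μ e1 e2 hμ e3 (η / 2) (by positivity)
      refine ⟨n₃, fun _ n hn w hw hw2 => ?_⟩
      have := (h4 n hn w hw hw2).1
      rw [MD_eq, finsum_mem_coe_finset] at this
      exact this
  choose n₃ h3 using h3
  refine ⟨M, max (max n₁ n₂) (T.sup n₃), fun n hn w Ψ hw hw2 hΨ hΨ2 => ?_⟩
  have hn1 : n₁ ≤ n := (le_max_left _ _).trans ((le_max_left _ _).trans hn)
  have hn2 : n₂ ≤ n := (le_max_right _ _).trans ((le_max_left _ _).trans hn)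
  have hn3 : ∀ t ∈ T, n₃ t ≤ n := fun t ht =>
    (Finset.le_sup ht).trans ((le_max_right _ _).trans hn)
  have hΨ3 : FlatAt μ Ψ k N M n := flatAt_mono (h1 n hn1) hΨ2 hk0
  have hqn : (0 : ℝ) < (Fintype.card K : ℝ) ^ n := by positivity
  set F : K[X] → ℝ := fun a => w a * ((liou (f.eval a) : ℝ) * Ψ a) with hF
  have hF1 : ∀ a, |F a| ≤ 1 := by
    intro a
    have e1 := hΨ a
    rw [hF]
    simp only [abs_mul]
    have e2 := liou_abs (f.eval a)
    have e3 := hw a
    have e4 := abs_nonneg (w a)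
    have e5 := abs_nonneg (liou (f.eval a) : ℝ)
    have e6 := abs_nonneg (Ψ a)
    exact mul_le_one₀ e3 (mul_nonneg e5 e6) (mul_le_one₀ e2 e6 e1)
  have hGM := h2 n hn2 F hF1
  -- the cube products
  have hcube : ∀ t ∈ T, ∀ a ∈ Mn K n,
      ∏ B : Finset (Fin k), F (a + μ * (N * ∑ j ∈ B, t j) ^ 2) = w a ^ (2 ^ k) *
        (liou ((∏ B : Finset (Fin k),
          f.comp (X + C (μ * (N * ∑ j ∈ B, t j) ^ 2))).eval a) : ℝ) := by
    intro t ht a ha
    have ht' : ∀ j, (t j).degree < (M : WithBot ℕ) := fun j =>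
      mem_Pl.1 (Fintype.mem_piFinset.1 ht j)
    rw [hF]
    simp only []
    rw [Finset.prod_mul_distrib, Finset.prod_mul_distrib, cube_weight hw2 hk2, hΨ3 a ha t ht',
      mul_one, eval_prod, liou_prod]
    push_cast
    congr 1
    refine Finset.prod_congr rfl fun B _ => ?_
    rw [eval_comp, eval_add, eval_X, eval_C]
  have hgood : ∀ t ∈ T, ¬ Bad t →
      |(∑ a ∈ Mn K n, ∏ B : Finset (Fin k), F (a + μ * (N * ∑ j ∈ B, t j) ^ 2)) /
        (Fintype.card K : ℝ) ^ n| ≤ η / 2 := by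
    intro t ht hbad
    rw [Finset.sum_congr rfl (hcube t ht), abs_div, abs_of_pos hqn, div_le_iff₀ hqn]
    refine h3 t hbad n (hn3 t ht) (fun a => w a ^ (2 ^ k)) (fun g => ?_) (pow_weight hw2 (2 ^ k))
    rw [abs_pow]
    exact pow_le_one₀ (abs_nonneg _) (hw g)
  have hall : ∀ t : Fin k → K[X],
      |(∑ a ∈ Mn K n, ∏ B : Finset (Fin k), F (a + μ * (N * ∑ j ∈ B, t j) ^ 2)) /
        (Fintype.card K : ℝ) ^ n| ≤ 1 := by
    intro t
    rw [abs_div, abs_of_pos hqn, div_le_one hqn]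
    refine (Finset.abs_sum_le_sum_abs _ _).trans ?_
    have : ∑ a ∈ Mn K n, |∏ B : Finset (Fin k), F (a + μ * (N * ∑ j ∈ B, t j) ^ 2)| ≤
        ∑ a ∈ Mn K n, (1 : ℝ) := by
      refine Finset.sum_le_sum fun a _ => ?_
      rw [Finset.abs_prod]
      exact Finset.prod_le_one (fun i _ => abs_nonneg _) (fun i _ => hF1 _)
    refine this.trans ?_
    rw [Finset.sum_const, card_Mn, nsmul_eq_mul, mul_one]
    push_cast
    exact le_rfl
  -- counting
  have hTcard : (T.card : ℝ) = ((Fintype.card K : ℝ) ^ M) ^ k := by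
    rw [hT, Fintype.card_piFinset, Finset.prod_const, card_Pl, Finset.card_univ,
      Fintype.card_fin]
    push_cast
    rfl
  have hcnt := hc K k M Z
  have hsum : ∑ t ∈ T,
      |(∑ a ∈ Mn K n, ∏ B : Finset (Fin k), F (a + μ * (N * ∑ j ∈ B, t j) ^ 2)) /
        (Fintype.card K : ℝ) ^ n| ≤ η * ((Fintype.card K : ℝ) ^ M) ^ k := by
    have hb : ((T.filter Bad).card : ℝ) ≤ η / 2 * ((Fintype.card K : ℝ) ^ M) ^ k := by
      have e1 : ((T.filter Bad).card : ℝ) * (Fintype.card K : ℝ) ^ M ≤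
          η / 2 * ((Fintype.card K : ℝ) ^ M) ^ k * (Fintype.card K : ℝ) ^ M := by
        refine hcnt.trans ?_
        have : (0 : ℝ) ≤ ((Fintype.card K : ℝ) ^ M) ^ k := by positivity
        nlinarith
      exact le_of_mul_le_mul_right e1 hqM
    rw [← Finset.sum_filter_add_sum_filter_not T Bad]
    have e1 : ∑ t ∈ T.filter Bad,
        |(∑ a ∈ Mn K n, ∏ B : Finset (Fin k), F (a + μ * (N * ∑ j ∈ B, t j) ^ 2)) /
          (Fintype.card K : ℝ) ^ n| ≤ ((T.filter Bad).card : ℝ) := by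
      refine (Finset.sum_le_sum fun t _ => hall t).trans ?_
      rw [Finset.sum_const, nsmul_eq_mul, mul_one]
    have e2 : ∑ t ∈ T.filter (fun t => ¬ Bad t),
        |(∑ a ∈ Mn K n, ∏ B : Finset (Fin k), F (a + μ * (N * ∑ j ∈ B, t j) ^ 2)) /
          (Fintype.card K : ℝ) ^ n| ≤ η / 2 * (T.card : ℝ) := by
      refine (Finset.sum_le_sum fun t ht => hgood t (Finset.mem_filter.1 ht).1
        (Finset.mem_filter.1 ht).2).trans ?_
      rw [Finset.sum_const, nsmul_eq_mul, mul_comm]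
      refine mul_le_mul_of_nonneg_left ?_ (by positivity)
      exact_mod_cast Finset.card_filter_le _ _
    rw [hTcard] at e2
    linarith
  have hfin : |(∑ a ∈ Mn K n, F a) / (Fintype.card K : ℝ) ^ n| ^ (2 ^ k) ≤ ε ^ (2 ^ k) := by
    refine hGM.trans ?_
    rw [div_le_iff₀ (by positivity), ← hη]
    exact hsum
  have hfin2 : |(∑ a ∈ Mn K n, F a) / (Fintype.card K : ℝ) ^ n| ≤ ε :=
    le_of_pow_le_pow_left₀ (by positivity) hε.le hfin
  rw [abs_div, abs_of_pos hqn, div_le_iff₀ hqn] at hfin2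
  exact hfin2

/-- **Mixed Chowla**, the statement. -/
def S_mix : Prop :=
  ∀ (K : Type) [Field K] [Fintype K] [CharP K 2] (f : K[X][X]) (μ : K[X]) (r : ℕ)
    (α c : Fin r → K[X]) (A : Fin r → K[X][X]),
    0 < f.natDegree → (f.map (algebraMap K[X] (RatFunc K))).Separable → μ ≠ 0 → SqR f μ →
    (∀ i, α i ≠ 0) → (∀ i, ¬ IsSquare (α i * c i)) → ∀ ε : ℝ, 0 < ε → ∃ n₀ : ℕ, ∀ n : ℕ,
    n₀ ≤ n → ∀ w : K[X] → ℝ, (∀ g, |w g| ≤ 1) →
      (∀ g, ∃ χ : AddChar K[X] ℝ, ∀ u, w (g + μ * u ^ 2) = w g * χ u) →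
      |∑ g ∈ Mn K n, w g * (liou (f.eval g * ∏ i, (α i * ((A i).eval g) ^ 2 + c i)) : ℝ)| ≤
        ε * (Fintype.card K : ℝ) ^ n

theorem mix (hgen : S_gen) (hf : S_flat) : S_mix := by
  intro K _ _ _ f μ r α c A hd hsep hμ hr hα hns ε hε
  obtain ⟨k, N, hN, hflat⟩ := flat_prod (μ := μ) (Finset.univ : Finset (Fin r))
    (fun i a => (liou (α i * ((A i).eval a) ^ 2 + c i) : ℝ))
    (fun i _ => hf K (α i) (c i) μ (A i) (hα i) (hns i))
  obtain ⟨M, n₀, h0⟩ := hgen K f μ N k hd hsep hμ hN hr ε hε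
  obtain ⟨n₁, h1⟩ := hflat M
  refine ⟨max n₀ n₁, fun n hn w hw hw2 => ?_⟩
  have h2 := h0 n ((le_max_left _ _).trans hn) w (Gi α c A) hw hw2 (fun a => ?_)
    (h1 n ((le_max_right _ _).trans hn))
  · refine le_of_eq_of_le ?_ h2
    congr 1
    refine Finset.sum_congr rfl fun g _ => ?_
    rw [liou_mul, liou_prod]
    unfold Gi
    push_cast
    rfl
  · unfold Gi
    rw [Finset.abs_prod]
    exact Finset.prod_le_one (fun i _ => abs_nonneg _) (fun i _ => liou_abs _)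

end Pool.Agent.H140.MX
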