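import Pool.Agent.H140.MX.Stm

/-!
# MX-CD: degrees of functions on the cube in characteristic two
-/

set_option autoImplicit false

namespace Pool.Agent.H140.MX

namespace CdL

variable {R : Type} [CommRing R] [CharP R 2] {k : ℕ}

theorem two_nsmul' {n : ℕ} (hn : 0 < n) (r : R) : (2 ^ n : ℕ) • r = 0 := by
  have h2 : ((2 : ℕ) : R) = 0 := CharP.cast_eq_zero R 2
  rw [nsmul_eq_mul, Nat.cast_pow, h2, zero_pow hn.ne', zero_mul]

/-- the sum of a constant over an interval -/
theorem sum_Icc {C A : Finset (Fin k)} (h : C ⊆ A) (r : R) :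
    ∑ _B ∈ Finset.Icc C A, r = if C = A then r else 0 := by
  rw [Finset.sum_const, Finset.card_Icc_finset h]
  by_cases hCA : C = A
  · subst hCA
    rw [if_pos rfl, Nat.sub_self, pow_zero, one_nsmul]
  · rw [if_neg hCA]
    apply two_nsmul'
    have h1 : C.card < A.card := Finset.card_lt_card (lt_of_le_of_ne h hCA)
    omega

/-- Moebius inversion in characteristic two -/
theorem inv (y : Finset (Fin k) → R) (A : Finset (Fin k)) :
    ∑ B ∈ A.powerset, ∑ C ∈ B.powerset, y C = y A := by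
  have h1 : ∑ B ∈ A.powerset, ∑ C ∈ B.powerset, y C =
      ∑ C ∈ A.powerset, ∑ _B ∈ Finset.Icc C A, y C := by
    apply Finset.sum_comm'
    intro B C
    simp only [Finset.mem_powerset, Finset.mem_Icc]
    constructor
    · rintro ⟨h1, h2⟩
      exact ⟨⟨h2, h1⟩, h2.trans h1⟩
    · rintro ⟨⟨h1, h2⟩, h3⟩
      exact ⟨h2, h1⟩
  rw [h1]
  have h2 : ∀ C ∈ A.powerset, ∑ _B ∈ Finset.Icc C A, y C = if C = A then y C else 0 :=
    fun C hC => sum_Icc (Finset.mem_powerset.1 hC) _
  rw [Finset.sum_congr rfl h2, Finset.sum_ite_eq' A.powerset A, if_pos (Finset.mem_powerset_self A)]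

theorem prod (D E : ℕ) (y z : Finset (Fin k) → R) (hy : CDeg D y) (hz : CDeg E z) :
    CDeg (D + E) (fun A => y A * z A) := by
  intro C hC
  have h1 : ∀ A ∈ C.powerset, y A * z A = ∑ p ∈ A.powerset ×ˢ A.powerset,
      (∑ B ∈ p.1.powerset, y B) * ∑ B ∈ p.2.powerset, z B := by
    intro A _
    rw [Finset.sum_product]
    dsimp only
    rw [← Finset.sum_mul_sum, inv, inv]
  rw [Finset.sum_congr rfl h1]
  have h2 : ∑ A ∈ C.powerset, ∑ p ∈ A.powerset ×ˢ A.powerset,
      (∑ B ∈ p.1.powerset, y B) * ∑ B ∈ p.2.powerset, z B =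
      ∑ p ∈ C.powerset ×ˢ C.powerset, ∑ _A ∈ Finset.Icc (p.1 ∪ p.2) C,
        (∑ B ∈ p.1.powerset, y B) * ∑ B ∈ p.2.powerset, z B := by
    apply Finset.sum_comm'
    intro A p
    simp only [Finset.mem_powerset, Finset.mem_Icc, Finset.mem_product,
      Finset.union_subset_iff]
    constructor
    · rintro ⟨h1, h2, h3⟩
      exact ⟨⟨⟨h2, h3⟩, h1⟩, h2.trans h1, h3.trans h1⟩
    · rintro ⟨⟨⟨h1, h2⟩, h3⟩, -⟩
      exact ⟨h3, h1, h2⟩
  rw [h2]
  refine Finset.sum_eq_zero fun p hp => ?_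
  rw [Finset.mem_product, Finset.mem_powerset, Finset.mem_powerset] at hp
  rw [sum_Icc (Finset.union_subset hp.1 hp.2)]
  by_cases h3 : p.1 ∪ p.2 = C
  · rw [if_pos h3]
    have h4 : C.card ≤ p.1.card + p.2.card := by
      rw [← h3]
      exact Finset.card_union_le _ _
    have h5 : D < p.1.card ∨ E < p.2.card := by omega
    rcases h5 with h5 | h5
    · rw [hy _ h5, zero_mul]
    · rw [hz _ h5, mul_zero]
  · rw [if_neg h3]

theorem lin (v : Fin k → R) : CDeg 1 (fun A => ∑ j ∈ A, v j) := by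
  intro B hB
  have h1 : ∑ A ∈ B.powerset, ∑ j ∈ A, v j =
      ∑ j ∈ B, ∑ _A ∈ Finset.Icc {j} B, v j := by
    apply Finset.sum_comm'
    intro A j
    simp only [Finset.mem_powerset, Finset.mem_Icc,
      Finset.singleton_subset_iff]
    constructor
    · rintro ⟨h1, h2⟩
      exact ⟨⟨h2, h1⟩, h1 h2⟩
    · rintro ⟨⟨h1, h2⟩, h3⟩
      exact ⟨h2, h1⟩
  show ∑ A ∈ B.powerset, ∑ j ∈ A, v j = 0
  rw [h1]
  refine Finset.sum_eq_zero fun j hj => ?_
  rw [sum_Icc (Finset.singleton_subset_iff.2 hj), if_neg]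
  intro h2
  rw [← h2, Finset.card_singleton] at hB
  exact lt_irrefl _ hB

end CdL

open CdL in
/-- **Task MX-CD.** -/
theorem cd : S_cd := by
  intro R _ _ k
  refine ⟨fun r B hB => ?_, fun v => lin v, fun D D' y h hD B hB => h B (hD.trans_lt hB),
    fun D y z hy hz B hB => ?_, fun D E y z hy hz => prod D E y z hy hz, fun D y hy hD => ?_⟩
  · rw [Finset.sum_const, Finset.card_powerset]
    exact two_nsmul' hB r
  · rw [Finset.sum_add_distrib, hy B hB, hz B hB, add_zero]
  · have h1 := hy Finset.univ (by rw [Finset.card_univ, Fintype.card_fin]; exact hD)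
    rwa [Finset.powerset_univ] at h1

end Pool.Agent.H140.MX
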