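import Pool.Agent.H140.MX.Stm

/-!
# Task MX-CNT (helper236): few exceptional tuples
-/

set_option autoImplicit false

namespace Pool.Agent.H140.MX

open Polynomial
open scoped Classical
open Pool.Agent.H251.SP.TII (Pl)

theorem cnt_one {G : Type} [AddCommGroup G] {k : ℕ} (P : Finset G) (B : Finset (Fin k))
    (j₀ : Fin k) (hj : j₀ ∈ B) (z : G) :
    ((Fintype.piFinset (fun _ : Fin k => P)).filter (fun t => ∑ j ∈ B, t j = z)).card * P.card ≤
      P.card ^ k := by
  have h0 : P.card ^ k = (Fintype.piFinset (fun _ : Fin k => P)).card := by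
    rw [Fintype.card_piFinset_const]
  rw [h0, ← Finset.card_product]
  refine Finset.card_le_card_of_injOn (fun q => Function.update q.1 j₀ q.2) ?_ ?_
  · rintro ⟨t, s⟩ hq
    have hq' := Finset.mem_product.1 (Finset.mem_coe.1 hq)
    have ht := Fintype.mem_piFinset.1 (Finset.mem_filter.1 hq'.1).1
    refine Finset.mem_coe.2 (Fintype.mem_piFinset.2 ?_)
    intro j
    by_cases h : j = j₀
    · subst h
      simp only [Function.update_self]
      exact hq'.2
    · simp only [Function.update_of_ne h]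
      exact ht j
  · rintro ⟨t, s⟩ hq ⟨t', s'⟩ hq' heq
    have h1 := (Finset.mem_filter.1 (Finset.mem_product.1 (Finset.mem_coe.1 hq)).1).2
    have h2 := (Finset.mem_filter.1 (Finset.mem_product.1 (Finset.mem_coe.1 hq')).1).2
    simp only at heq h1 h2
    have h3 : s = s' := by
      have := congrFun heq j₀
      simpa using this
    have h4 : ∀ j, j ≠ j₀ → t j = t' j := by
      intro j hne
      have := congrFun heq j
      simpa [Function.update_of_ne hne] using this
    have h5 : t j₀ = t' j₀ := by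
      rw [← Finset.add_sum_erase B _ hj] at h1 h2
      have h6 : ∑ j ∈ B.erase j₀, t j = ∑ j ∈ B.erase j₀, t' j :=
        Finset.sum_congr rfl (fun j hjj => h4 j (Finset.ne_of_mem_erase hjj))
      rw [h6] at h1
      exact add_right_cancel (h1.trans h2.symm)
    have h7 : t = t' := by
      funext j
      by_cases h : j = j₀
      · rw [h, h5]
      · exact h4 j h
    rw [h3, h7]

theorem cnt_all {G : Type} [AddCommGroup G] (k : ℕ) (P Z : Finset G) (T : Finset (Fin k → G))
    (hT : ∀ t ∈ T, (∀ j, t j ∈ P) ∧ ∃ B : Finset (Fin k), B.Nonempty ∧ ∑ j ∈ B, t j ∈ Z) :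
    T.card * P.card ≤ 2 ^ k * Z.card * P.card ^ k := by
  have hsub : T ⊆
      (Finset.univ.filter (fun B : Finset (Fin k) => B.Nonempty)).biUnion (fun B =>
        Z.biUnion (fun z =>
          (Fintype.piFinset (fun _ : Fin k => P)).filter (fun t => ∑ j ∈ B, t j = z))) := by
    intro t ht
    obtain ⟨h1, B, hB, hBZ⟩ := hT t ht
    refine Finset.mem_biUnion.2 ⟨B, Finset.mem_filter.2 ⟨Finset.mem_univ _, hB⟩, ?_⟩
    exact Finset.mem_biUnion.2 ⟨_, hBZ, Finset.mem_filter.2 ⟨Fintype.mem_piFinset.2 h1, rfl⟩⟩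
  have h2 := Finset.card_le_card hsub
  have h3 := h2.trans Finset.card_biUnion_le
  calc _ ≤ (∑ B ∈ Finset.univ.filter (fun B : Finset (Fin k) => B.Nonempty),
        (Z.biUnion (fun z =>
          (Fintype.piFinset (fun _ : Fin k => P)).filter (fun t => ∑ j ∈ B, t j = z))).card) *
          P.card := Nat.mul_le_mul_right _ h3
    _ ≤ (∑ _B ∈ Finset.univ.filter (fun B : Finset (Fin k) => B.Nonempty),
        Z.card * P.card ^ k) := by
      rw [Finset.sum_mul]
      refine Finset.sum_le_sum ?_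
      intro B hB
      obtain ⟨j₀, hj⟩ := (Finset.mem_filter.1 hB).2
      calc _ ≤ (∑ z ∈ Z, ((Fintype.piFinset (fun _ : Fin k => P)).filter
            (fun t => ∑ j ∈ B, t j = z)).card) * P.card :=
            Nat.mul_le_mul_right _ Finset.card_biUnion_le
        _ ≤ ∑ _z ∈ Z, P.card ^ k := by
          rw [Finset.sum_mul]
          exact Finset.sum_le_sum (fun z _ => cnt_one P B j₀ hj z)
        _ = Z.card * P.card ^ k := by rw [Finset.sum_const, smul_eq_mul]
    _ = (Finset.univ.filter (fun B : Finset (Fin k) => B.Nonempty)).card *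
        (Z.card * P.card ^ k) := by rw [Finset.sum_const, smul_eq_mul]
    _ ≤ 2 ^ k * (Z.card * P.card ^ k) := by
      refine Nat.mul_le_mul_right _ ((Finset.card_le_univ _).trans ?_)
      rw [Fintype.card_finset, Fintype.card_fin]
    _ = 2 ^ k * Z.card * P.card ^ k := by rw [mul_assoc]

theorem cnt_real {G : Type} [AddCommGroup G] (k q M : ℕ) (P Z : Finset G) (hP : P.card = q ^ M)
    (T : Finset (Fin k → G))
    (hT : ∀ t ∈ T, (∀ j, t j ∈ P) ∧ ∃ B : Finset (Fin k), B.Nonempty ∧ ∑ j ∈ B, t j ∈ Z) :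
    (T.card : ℝ) * (q : ℝ) ^ M ≤ 2 ^ k * Z.card * ((q : ℝ) ^ M) ^ k := by
  have h := cnt_all k P Z T hT
  rw [hP] at h
  exact_mod_cast h

/-- **Task MX-CNT.** -/
theorem cnt : S_cnt := by
  intro K _ _ k M Z
  refine cnt_real k (Fintype.card K) M (Pl K M) Z (Pool.Agent.H251.SP.TII.card_Pl M) _ ?_
  intro t ht
  rw [Finset.mem_filter, Fintype.mem_piFinset] at ht
  exact ht

end Pool.Agent.H140.MX
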