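import Pool.Agent.H140.MX.Stm
import Pool.Agent.H604.LD.FinM
import Pool.Agent.H140.Q.FinM
import Pool.Agent.H985.KP.Loc2

/-!
# Task MX-FLAT (helper264): the Liouville function of an inseparable factor is a polynomial phase
-/

set_option autoImplicit false
set_option linter.unusedSectionVars false
set_option linter.unusedVariables false

namespace Pool.Agent.H140.MX

open Polynomial
open scoped Classical
open Pool.Agent.H985.Chow (mob lc)
open Pool.Agent.H985.KP (sg)
open Pool.Agent.H694.Typ (Mn mem_Mn)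
open Pool.Agent.H140.Q (liou)
open Pool.Agent.H604.LD (fa phg S_parinfg)

namespace FLT

section cdeg

variable {R : Type} [CommRing R] [CharP R 2] {k : ℕ}

theorem cdeg_pow (h : S_cd) (z : Finset (Fin k) → R) (hz : CDeg 1 z) (i : ℕ) :
    CDeg i (fun B => z B ^ i) := by
  obtain ⟨h0, -, -, -, hmul, -⟩ := h R k
  induction i with
  | zero =>
    simp only [pow_zero]
    exact h0 1
  | succ i ih =>
    simp only [pow_succ]
    exact hmul i 1 _ _ ih hz

theorem cdeg_sum {ι : Type} (s : Finset ι) (D : ℕ) (f : ι → Finset (Fin k) → R)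
    (hf : ∀ i ∈ s, CDeg D (f i)) : CDeg D (fun B => ∑ i ∈ s, f i B) := by
  intro B hB
  rw [Finset.sum_comm]
  exact Finset.sum_eq_zero fun i hi => hf i hi B hB

theorem cdeg_eval (h : S_cd) (A : R[X]) (z : Finset (Fin k) → R) (hz : CDeg 1 z) :
    CDeg A.natDegree (fun B => A.eval (z B)) := by
  obtain ⟨h0, -, hmono, -, hmul, -⟩ := h R k
  simp only [eval_eq_sum_range]
  refine cdeg_sum _ _ _ fun i hi => ?_
  have h1 := hmul 0 i (fun _ => A.coeff i) _ (h0 (A.coeff i)) (cdeg_pow h z hz i)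
  refine hmono (0 + i) A.natDegree _ h1 ?_
  rw [Finset.mem_range] at hi
  omega

end cdeg

section deg

variable {K : Type} [Field K]

theorem top_sum {A : K[X][X]} {H n : ℕ} (hH : ∀ i, (A.coeff i).natDegree ≤ H) {a : K[X]}
    (ha : a.natDegree ≤ n) (D : ℕ) :
    (∑ i ∈ Finset.range D, A.coeff i * a ^ i).natDegree ≤ H + (D - 1) * n := by
  refine natDegree_sum_le_of_forall_le _ _ fun i hi => ?_
  rw [Finset.mem_range] at hi
  refine natDegree_mul_le.trans (add_le_add (hH i) ?_)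
  refine (natDegree_pow_le).trans ?_
  exact Nat.mul_le_mul (by omega) ha

theorem eval_top {A : K[X][X]} {H n : ℕ} (hH : ∀ i, (A.coeff i).natDegree ≤ H) {a : K[X]}
    (ha : a.Monic) (han : a.natDegree = n) (hn : H < n) (hD : 0 < A.natDegree) :
    (A.eval a).natDegree = A.leadingCoeff.natDegree + A.natDegree * n ∧
      (A.eval a).leadingCoeff = A.leadingCoeff.leadingCoeff := by
  have hA0 : A ≠ 0 := by
    rintro rfl
    simp at hD
  have hl0 : A.leadingCoeff ≠ 0 := leadingCoeff_ne_zero.2 hA0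
  have h1 : A.eval a = (∑ i ∈ Finset.range A.natDegree, A.coeff i * a ^ i) +
      A.leadingCoeff * a ^ A.natDegree := by
    rw [eval_eq_sum_range, Finset.sum_range_succ]
    rfl
  have h2 : (A.leadingCoeff * a ^ A.natDegree).natDegree =
      A.leadingCoeff.natDegree + A.natDegree * n := by
    rw [natDegree_mul hl0 (pow_ne_zero _ ha.ne_zero), natDegree_pow, han]
  have h3 := top_sum hH han.le A.natDegree
  have h4 : H + (A.natDegree - 1) * n < A.leadingCoeff.natDegree + A.natDegree * n := by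
    obtain ⟨D, hD'⟩ : ∃ D, A.natDegree = D + 1 := ⟨A.natDegree - 1, by omega⟩
    rw [hD', Nat.add_sub_cancel, Nat.add_mul, one_mul]
    omega
  have h5 : (∑ i ∈ Finset.range A.natDegree, A.coeff i * a ^ i).natDegree <
      (A.leadingCoeff * a ^ A.natDegree).natDegree := by
    rw [h2]
    omega
  constructor
  · rw [h1, natDegree_add_eq_right_of_natDegree_lt h5, h2]
  · rw [h1, leadingCoeff_add_of_degree_lt (degree_lt_degree h5), leadingCoeff_mul,
      leadingCoeff_pow, ha.leadingCoeff, one_pow, mul_one]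

theorem pow_diff {a δ : K[X]} {n : ℕ} (ha : a.natDegree ≤ n) (haδ : (a + δ).natDegree ≤ n)
    (i : ℕ) : ((a + δ) ^ (i + 1) - a ^ (i + 1)).natDegree ≤ δ.natDegree + i * n := by
  induction i with
  | zero =>
    rw [zero_add, pow_one, pow_one, add_sub_cancel_left, zero_mul, add_zero]
  | succ i ih =>
    have h1 : (a + δ) ^ (i + 1 + 1) - a ^ (i + 1 + 1) =
        ((a + δ) ^ (i + 1) - a ^ (i + 1)) * (a + δ) + a ^ (i + 1) * δ := by ring
    rw [h1]
    refine (natDegree_add_le _ _).trans (max_le ?_ ?_)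
    · refine natDegree_mul_le.trans ?_
      rw [Nat.add_mul, one_mul]
      omega
    · refine natDegree_mul_le.trans ?_
      have h2 : (a ^ (i + 1)).natDegree ≤ (i + 1) * n :=
        natDegree_pow_le.trans (Nat.mul_le_mul_left _ ha)
      omega

theorem eval_diff {A : K[X][X]} {H n : ℕ} (hH : ∀ i, (A.coeff i).natDegree ≤ H) {a δ : K[X]}
    (ha : a.natDegree ≤ n) (haδ : (a + δ).natDegree ≤ n) :
    (A.eval (a + δ) - A.eval a).natDegree ≤ H + δ.natDegree + (A.natDegree - 1) * n := by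
  rw [eval_eq_sum_range, eval_eq_sum_range, ← Finset.sum_sub_distrib]
  refine natDegree_sum_le_of_forall_le _ _ fun i hi => ?_
  rw [Finset.mem_range] at hi
  rw [← mul_sub]
  refine natDegree_mul_le.trans ?_
  rw [add_assoc]
  refine add_le_add (hH i) ?_
  rcases i with _ | i
  · rw [pow_zero, pow_zero, sub_self, natDegree_zero]
    exact Nat.zero_le _
  · refine (pow_diff ha haδ i).trans (Nat.add_le_add_left ?_ _)
    exact Nat.mul_le_mul_right _ (by omega)

/-- Coprime parts. -/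
theorem exists_cop (x b : K[X]) (hb : b.Monic) : ∃ g b2 x2 : K[X], g.Monic ∧ b2.Monic ∧
    b = g * b2 ∧ x = g * x2 ∧ IsCoprime x2 b2 := by
  have hg0 : EuclideanDomain.gcd x b ≠ 0 := by
    intro h
    exact hb.ne_zero (EuclideanDomain.gcd_eq_zero_iff.1 h).2
  obtain ⟨x', hx'⟩ := EuclideanDomain.gcd_dvd_left x b
  obtain ⟨b', hb'⟩ := EuclideanDomain.gcd_dvd_right x b
  have hbez := EuclideanDomain.gcd_eq_gcd_ab x b
  set g0 := EuclideanDomain.gcd x b with hg0def
  have hl : g0.leadingCoeff ≠ 0 := leadingCoeff_ne_zero.2 hg0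
  have hCC : (C g0.leadingCoeff⁻¹ : K[X]) * C g0.leadingCoeff = 1 := by
    rw [← C_mul, inv_mul_cancel₀ hl, C_1]
  have hgm : (g0 * C g0.leadingCoeff⁻¹).Monic := monic_mul_leadingCoeff_inv hg0
  have hbe : b = g0 * C g0.leadingCoeff⁻¹ * (C g0.leadingCoeff * b') := by
    have h1 : g0 * C g0.leadingCoeff⁻¹ * (C g0.leadingCoeff * b') =
        g0 * b' * (C g0.leadingCoeff⁻¹ * C g0.leadingCoeff) := by ring
    rw [h1, hCC, mul_one]
    exact hb'
  have hxe : x = g0 * C g0.leadingCoeff⁻¹ * (C g0.leadingCoeff * x') := by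
    have h1 : g0 * C g0.leadingCoeff⁻¹ * (C g0.leadingCoeff * x') =
        g0 * x' * (C g0.leadingCoeff⁻¹ * C g0.leadingCoeff) := by ring
    rw [h1, hCC, mul_one]
    exact hx'
  refine ⟨_, _, _, hgm, ?_, hbe, hxe, ?_⟩
  · refine hgm.of_mul_monic_left ?_
    rw [← hbe]
    exact hb
  · have h1 : g0 * (x' * EuclideanDomain.gcdA x b + b' * EuclideanDomain.gcdB x b) = g0 * 1 := by
      calc g0 * (x' * EuclideanDomain.gcdA x b + b' * EuclideanDomain.gcdB x b)
          = (g0 * x') * EuclideanDomain.gcdA x b + (g0 * b') * EuclideanDomain.gcdB x b := by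
            ring
        _ = g0 * 1 := by rw [← hx', ← hb', ← hbez, mul_one]
    have h2 := mul_left_cancel₀ hg0 h1
    refine ⟨EuclideanDomain.gcdA x b * C g0.leadingCoeff⁻¹,
      EuclideanDomain.gcdB x b * C g0.leadingCoeff⁻¹, ?_⟩
    calc EuclideanDomain.gcdA x b * C g0.leadingCoeff⁻¹ * (C g0.leadingCoeff * x') +
        EuclideanDomain.gcdB x b * C g0.leadingCoeff⁻¹ * (C g0.leadingCoeff * b')
        = (C g0.leadingCoeff⁻¹ * C g0.leadingCoeff) *
          (x' * EuclideanDomain.gcdA x b + b' * EuclideanDomain.gcdB x b) := by ring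
      _ = 1 := by rw [hCC, h2, mul_one]

end deg

section char2

variable {K : Type} [Field K] [Fintype K] [CharP K 2]

theorem sqf {γ : K} (hγ : γ ≠ 0) {b y : K[X]} (h : IsCoprime y b) :
    Squarefree (fa γ b y) := by
  have h2 : ((2 : ℕ) : K) = 0 := CharP.cast_eq_zero K 2
  have hder : derivative (fa γ b y) = (C γ * b) ^ 2 := by
    unfold fa
    rw [derivative_add, derivative_mul, derivative_X, derivative_pow, derivative_pow, h2]
    simp
  have hcop : IsCoprime (fa γ b y) ((C γ * b) ^ 2) := by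
    have h3 : IsCoprime y (C γ * b) := by
      have h4 : IsUnit (C γ : K[X]) := isUnit_C.2 (IsUnit.mk0 _ hγ)
      exact (isCoprime_mul_unit_left_right h4 y b).2 h
    have h4 : IsCoprime (y ^ 2) ((C γ * b) ^ 2) := h3.pow
    unfold fa
    exact IsCoprime.add_mul_right_left h4 X
  have hsep : (fa γ b y).Separable := by
    unfold Polynomial.Separable
    rw [hder]
    exact hcop
  exact hsep.squarefree

theorem liou_sqf {F : K[X]} (h : Squarefree F) : liou F = mob F := by
  unfold liou mob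
  rw [if_neg h.ne_zero, if_pos h]

theorem sg_sum {ι : Type} (s : Finset ι) (f : ι → K) : ∏ i ∈ s, sg (f i) = sg (∑ i ∈ s, f i) := by
  induction s using Finset.induction_on with
  | empty =>
    rw [Finset.prod_empty, Finset.sum_empty, Pool.Agent.H985.KP.Loc2.sg_zero]
  | insert a s ha ih =>
    rw [Finset.prod_insert ha, Finset.sum_insert ha, ih, Pool.Agent.H985.KP.Loc2.sg_add]

theorem pm_pow {η : ℝ} (h : η = 1 ∨ η = -1) {k : ℕ} (hk : 0 < k) :
    η ^ (Fintype.card (Finset (Fin k))) = 1 := by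
  rw [Fintype.card_finset, Fintype.card_fin]
  obtain ⟨m, rfl⟩ : ∃ m, k = m + 1 := ⟨k - 1, by omega⟩
  rw [pow_succ, mul_comm, pow_mul]
  have h1 : η ^ 2 = 1 := by
    rcases h with rfl | rfl <;> norm_num
  rw [h1, one_pow]

/-- The product over the cube. -/
theorem core (hpar : S_parinfg) (hv : S_van) {k D : ℕ} (hk : D * (2 * D + 1 + 2) < k)
    (x : Finset (Fin k) → K[X]) (b : K[X]) (γ0 κ : K) (hγ0 : γ0 ≠ 0) (hκ : κ ≠ 0)
    (hb : b.Monic) (hx : CDeg D x) (X0 : ℕ) (hdeg : ∀ B, (x B).natDegree = X0)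
    (hlead : ∀ B, (x B).leadingCoeff = κ) (hcong : ∀ B, b ^ 6 ∣ x B - x ∅) (G : ℕ)
    (hG : ∀ B, (x B - x ∅).natDegree + G ≤ X0) (hG0 : G + b.natDegree ≤ X0)
    (h5 : 6 * b.natDegree < X0) (h2 : 2 * X0 ≤ (2 * D + 1) * G) :
    ∏ B : Finset (Fin k), (liou ((x B) ^ 2 + X * (C γ0 * b) ^ 2) : ℝ) = 1 := by
  obtain ⟨g, b2, x2, hg, hb2, hbe, hxe, hcop⟩ := exists_cop (x ∅) b hb
  choose w hw using hcong
  have hCC : (C κ : K[X]) * C κ⁻¹ = 1 := by
    rw [← C_mul, mul_inv_cancel₀ hκ, C_1]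
  have hCκ : (C κ : K[X]) ≠ 0 := by
    rw [Ne, C_eq_zero]
    exact hκ
  obtain ⟨y, hy⟩ : ∃ y : Finset (Fin k) → K[X],
      y = fun B => C κ⁻¹ * (x2 + g ^ 5 * b2 ^ 6 * w B) := ⟨_, rfl⟩
  have hyB : ∀ B, y B = C κ⁻¹ * (x2 + g ^ 5 * b2 ^ 6 * w B) := fun B => by rw [hy]
  have hxy : ∀ B, x B = C κ * g * y B := by
    intro B
    have h3 : x B = x ∅ + b ^ 6 * w B := by
      rw [← hw B]
      ring
    rw [h3, hyB, hxe, hbe]
    calc g * x2 + (g * b2) ^ 6 * w B = 1 * (g * (x2 + g ^ 5 * b2 ^ 6 * w B)) := by ring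
      _ = C κ * g * (C κ⁻¹ * (x2 + g ^ 5 * b2 ^ 6 * w B)) := by
        rw [← hCC]
        ring
  have hx0 : ∀ B, x B ≠ 0 := by
    intro B h
    have h3 := hlead B
    rw [h, leadingCoeff_zero] at h3
    exact hκ h3.symm
  have hy0 : ∀ B, y B ≠ 0 := by
    intro B h
    apply hx0 B
    rw [hxy, h, mul_zero]
  have hym : ∀ B, (y B).Monic := by
    intro B
    have h3 := hlead B
    rw [hxy, leadingCoeff_mul, leadingCoeff_mul, leadingCoeff_C, hg.leadingCoeff, mul_one] at h3
    exact mul_left_cancel₀ hκ (by rw [h3, mul_one])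
  have hyd : ∀ B, g.natDegree + (y B).natDegree = X0 := by
    intro B
    rw [← hdeg B, hxy, natDegree_mul (mul_ne_zero hCκ hg.ne_zero) (hy0 B),
      natDegree_C_mul hκ]
  have hbd : b.natDegree = g.natDegree + b2.natDegree := by
    rw [hbe, natDegree_mul hg.ne_zero hb2.ne_zero]
  have hw0 : w ∅ = 0 := by
    have h3 := hw ∅
    rw [sub_self] at h3
    exact (mul_eq_zero.1 h3.symm).resolve_left (pow_ne_zero 6 hb.ne_zero)
  have hyc : ∀ B, b2 ^ 5 ∣ y B - y ∅ := by
    intro B
    rw [hyB, hyB, hw0]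
    exact ⟨C κ⁻¹ * g ^ 5 * b2 * w B, by ring⟩
  have hcopy : ∀ B, IsCoprime (y B) b2 := by
    intro B
    rw [hyB]
    have h3 : IsUnit (C κ⁻¹ : K[X]) := isUnit_C.2 (IsUnit.mk0 _ (inv_ne_zero hκ))
    rw [isCoprime_mul_unit_left_left h3]
    have h4 : x2 + g ^ 5 * b2 ^ 6 * w B = x2 + (g ^ 5 * b2 ^ 5 * w B) * b2 := by ring
    rw [h4]
    exact IsCoprime.add_mul_right_left hcop _
  have hγ : γ0 * κ⁻¹ ≠ 0 := mul_ne_zero hγ0 (inv_ne_zero hκ)
  -- the Liouville function
  have hliou : ∀ B, (liou ((x B) ^ 2 + X * (C γ0 * b) ^ 2) : ℝ) =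
      (mob (fa (γ0 * κ⁻¹) b2 (y B)) : ℝ) := by
    intro B
    have h3 : (x B) ^ 2 + X * (C γ0 * b) ^ 2 =
        (C κ * g) * ((C κ * g) * fa (γ0 * κ⁻¹) b2 (y B)) := by
      unfold fa
      rw [hxy, hbe, C_mul]
      calc (C κ * g * y B) ^ 2 + X * (C γ0 * (g * b2)) ^ 2
          = (C κ * g * y B) ^ 2 + 1 ^ 2 * (X * (C γ0 * (g * b2)) ^ 2) := by ring
        _ = C κ * g * (C κ * g * (y B ^ 2 + X * (C γ0 * C κ⁻¹ * b2) ^ 2)) := by
          rw [← hCC]
          ring
    rw [h3, Pool.Agent.H140.Q.FinM.liou_mul (C κ * g) (C κ * g * fa (γ0 * κ⁻¹) b2 (y B)),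
      Pool.Agent.H140.Q.FinM.liou_mul (C κ * g) (fa (γ0 * κ⁻¹) b2 (y B)), ← mul_assoc,
      Pool.Agent.H140.Q.FinM.liou_self (mul_ne_zero hCκ hg.ne_zero), one_mul,
      liou_sqf (sqf hγ (hcopy B))]
  rw [Finset.prod_congr rfl fun B _ => hliou B]
  -- the sign
  obtain ⟨η, hη, hsg⟩ := hpar K (γ0 * κ⁻¹) b2 (y ∅) (X0 - g.natDegree) hγ hb2 (hcopy ∅) (by omega)
  have hmob : ∀ B, (mob (fa (γ0 * κ⁻¹) b2 (y B)) : ℝ) = η * sg (phg (γ0 * κ⁻¹) b2 (y B)) := by
    intro B
    have h3 := hyd B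
    exact hsg (y B) (hym B) (by omega) (hyc B)
  rw [Finset.prod_congr rfl fun B _ => hmob B, Finset.prod_mul_distrib, Finset.prod_const,
    Finset.card_univ, pm_pow hη (by omega), one_mul, sg_sum]
  have hcy : CDeg D y := by
    intro B hB
    have h3 := hx B hB
    rw [Finset.sum_congr rfl fun A _ => hxy A, ← Finset.mul_sum] at h3
    exact (mul_eq_zero.1 h3).resolve_left (mul_ne_zero hCκ hg.ne_zero)
  have hvan := hv K k D (2 * D + 1) G (X0 - g.natDegree) b2 y hb2
    (fun B => ⟨hym B, by have h3 := hyd B; omega⟩) hcy (by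
      intro B
      by_cases h3 : y B - y ∅ = 0
      · rw [h3, natDegree_zero]
        omega
      · have h4 : x B - x ∅ = C κ * g * (y B - y ∅) := by
          rw [hxy B, hxy ∅]
          ring
        have h6 := hG B
        rw [h4, natDegree_mul (mul_ne_zero hCκ hg.ne_zero) h3, natDegree_C_mul hκ] at h6
        omega) (by omega) hk
  have hz : ∑ B : Finset (Fin k), phg (γ0 * κ⁻¹) b2 (y B) = 0 := by
    unfold phg
    rw [← Finset.mul_sum, hvan, mul_zero]
  rw [hz, Pool.Agent.H985.KP.Loc2.sg_zero]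

end char2

end FLT

open FLT in
/-- **Task MX-FLAT.** -/
theorem flat (hp : Pool.Agent.H604.LD.S_parinfg) (h : S_cd) (hv : S_van) : S_flat := by
  intro K _ _ _ α c μ A hα hsq
  have h2K : (2 : K[X]) = 0 := by
    have h3 : ((2 : ℕ) : K[X]) = 0 := CharP.cast_eq_zero K[X] 2
    exact_mod_cast h3
  have hF0 : ∀ r : K[X], α * r ^ 2 + c ≠ 0 := by
    intro r h3
    apply hsq
    refine ⟨α * r, ?_⟩
    have h4 : α * c = α * (α * r ^ 2 + c) - 2 * (α * r) ^ 2 + α * r * (α * r) := by ring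
    rw [h4, h3, h2K]
    ring
  have hpm : ∀ F : K[X], F ≠ 0 → ((liou F : ℝ) = 1 ∨ (liou F : ℝ) = -1) := by
    intro F hF
    have h3 := Pool.Agent.H140.Q.FinM.liou_self hF
    have h4 : (liou F : ℝ) * (liou F : ℝ) = 1 := by exact_mod_cast h3
    exact mul_self_eq_one_iff.1 h4
  rcases Nat.eq_zero_or_pos A.natDegree with hD | hD
  · refine ⟨1, 1, one_ne_zero, fun M => ⟨0, fun n _ a _ t _ => ?_⟩⟩
    have h3 : ∀ z : K[X], A.eval z = A.coeff 0 := by
      intro z
      conv_lhs => rw [eq_C_of_natDegree_eq_zero hD]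
      rw [eval_C]
    simp only [h3]
    rw [Finset.prod_const, Finset.card_univ]
    exact pm_pow (hpm _ (hF0 _)) one_pos
  · obtain ⟨γ0, b, e, hγ0, hb, hce⟩ := Pool.Agent.H604.LD.FINM.data hsq
    obtain ⟨H, hH⟩ : ∃ H : ℕ, ∀ i, (A.coeff i).natDegree ≤ H := by
      refine ⟨(Finset.range (A.natDegree + 1)).sup fun i => (A.coeff i).natDegree, fun i => ?_⟩
      by_cases hi : i ≤ A.natDegree
      · exact Finset.le_sup (f := fun i => (A.coeff i).natDegree)
          (Finset.mem_range.2 (by omega))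
      · rw [coeff_eq_zero_of_natDegree_lt (by omega), natDegree_zero]
        exact Nat.zero_le _
    set D := A.natDegree with hDdef
    have hA0 : A ≠ 0 := by
      intro h0
      rw [hDdef, h0, natDegree_zero] at hD
      exact lt_irrefl _ hD
    have hl0 : A.leadingCoeff ≠ 0 := leadingCoeff_ne_zero.2 hA0
    refine ⟨D * (2 * D + 1 + 2) + 1, b ^ 3, pow_ne_zero 3 hb.ne_zero, fun M => ?_⟩
    obtain ⟨Cδ, hCδ⟩ : ∃ Cδ, Cδ = μ.natDegree + 2 * ((b ^ 3).natDegree + M) := ⟨_, rfl⟩
    refine ⟨2 * (α.natDegree + A.leadingCoeff.natDegree) + (2 * D + 1) * (H + Cδ) +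
      e.natDegree + 6 * b.natDegree + 1, fun n hn a ha t ht => ?_⟩
    rw [mem_Mn] at ha
    obtain ⟨ham, han⟩ := ha
    have hb3 : (b ^ 3).natDegree = 3 * b.natDegree := natDegree_pow b 3
    have hHC : H + Cδ ≤ (2 * D + 1) * (H + Cδ) := Nat.le_mul_of_pos_left _ (by omega)
    -- the shifts
    obtain ⟨δ, hδ⟩ : ∃ δ : Finset (Fin (D * (2 * D + 1 + 2) + 1)) → K[X],
        δ = fun B => μ * (b ^ 3 * ∑ j ∈ B, t j) ^ 2 := ⟨_, rfl⟩
    have hδB : ∀ B, μ * (b ^ 3 * ∑ j ∈ B, t j) ^ 2 = δ B := fun B => by rw [hδ]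
    simp only [hδB]
    have hδd : ∀ B, (δ B).natDegree ≤ Cδ := by
      intro B
      have h3 : (∑ j ∈ B, t j).natDegree ≤ M := by
        refine natDegree_sum_le_of_forall_le _ _ fun j _ => ?_
        exact natDegree_le_of_degree_le (ht j).le
      rw [← hδB, hCδ]
      refine natDegree_mul_le.trans (Nat.add_le_add_left ?_ _)
      refine natDegree_pow_le.trans (Nat.mul_le_mul_left _ ?_)
      exact natDegree_mul_le.trans (Nat.add_le_add_left h3 _)
    have hmon : ∀ B, (a + δ B).Monic ∧ (a + δ B).natDegree = n := by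
      intro B
      have h3 : (δ B).natDegree < a.natDegree := by
        have h4 := hδd B
        omega
      have h4 : (δ B).degree < a.degree := degree_lt_degree h3
      exact ⟨ham.add_of_left h4, by rw [natDegree_add_eq_left_of_natDegree_lt h3, han]⟩
    have hcd : CDeg 1 δ := by
      have h3 : δ = fun B => ∑ j ∈ B, μ * (b ^ 3 * t j) ^ 2 := by
        funext B
        rw [← hδB, Finset.mul_sum]
        induction B using Finset.induction_on with
        | empty => simp
        | insert j B hj ih =>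
          rw [Finset.sum_insert hj, Finset.sum_insert hj, ← ih]
          have h4 : μ * (b ^ 3 * t j + ∑ i ∈ B, b ^ 3 * t i) ^ 2 =
              μ * (b ^ 3 * t j) ^ 2 + μ * (∑ i ∈ B, b ^ 3 * t i) ^ 2 +
                2 * (μ * (b ^ 3 * t j) * ∑ i ∈ B, b ^ 3 * t i) := by ring
          rw [h4, h2K, zero_mul, add_zero]
      rw [h3]
      exact (h K[X] _).2.1 _
    have hcd1 : CDeg 1 (fun B => a + δ B) := by
      obtain ⟨h0, -, hmono, hadd, -, -⟩ := h K[X] (D * (2 * D + 1 + 2) + 1)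
      exact hadd 1 _ _ (hmono 0 1 _ (h0 a) (by omega)) hcd
    -- the values
    obtain ⟨x, hxdef⟩ : ∃ x : Finset (Fin (D * (2 * D + 1 + 2) + 1)) → K[X],
        x = fun B => α * A.eval (a + δ B) + e := ⟨_, rfl⟩
    have hxB : ∀ B, x B = α * A.eval (a + δ B) + e := fun B => by rw [hxdef]
    have hcx : CDeg D x := by
      obtain ⟨h0, -, hmono, hadd, hmul, -⟩ := h K[X] (D * (2 * D + 1 + 2) + 1)
      rw [hxdef]
      have h3 := cdeg_eval h A (fun B => a + δ B) hcd1
      have h4 := hmul 0 D (fun _ => α) _ (h0 α) h3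
      rw [zero_add] at h4
      exact hadd D _ _ h4 (hmono 0 D _ (h0 e) (by omega))
    have htop := fun B => eval_top hH (hmon B).1 (hmon B).2 (by omega) hD
    have hDn : n ≤ D * n := Nat.le_mul_of_pos_left _ hD
    have hxt : ∀ B, (x B).natDegree = α.natDegree + A.leadingCoeff.natDegree + D * n ∧
        (x B).leadingCoeff = α.leadingCoeff * A.leadingCoeff.leadingCoeff := by
      intro B
      obtain ⟨h3, h4⟩ := htop B
      have h5 : A.eval (a + δ B) ≠ 0 := by
        intro h6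
        rw [h6, leadingCoeff_zero] at h4
        exact leadingCoeff_ne_zero.2 hl0 h4.symm
      have h6 : (α * A.eval (a + δ B)).natDegree =
          α.natDegree + A.leadingCoeff.natDegree + D * n := by
        rw [natDegree_mul hα h5, h3, add_assoc]
      have h7 : e.natDegree < (α * A.eval (a + δ B)).natDegree := by
        rw [h6]
        omega
      rw [hxB]
      constructor
      · rw [natDegree_add_eq_left_of_natDegree_lt h7, h6]
      · rw [leadingCoeff_add_of_degree_lt' (degree_lt_degree h7), leadingCoeff_mul, h4]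
    have hxdiff : ∀ B, (x B - x ∅).natDegree ≤ α.natDegree + (H + Cδ + (D - 1) * n) := by
      intro B
      have hδ0 : δ ∅ = 0 := by
        rw [← hδB]
        simp
      have h3 : x B - x ∅ = α * (A.eval (a + δ B) - A.eval a) := by
        rw [hxB, hxB, hδ0, add_zero]
        ring
      rw [h3]
      refine natDegree_mul_le.trans (Nat.add_le_add_left ?_ _)
      refine (eval_diff hH (n := n) (by omega) (hmon B).2.le).trans ?_
      have h4 := hδd B
      rw [← hDdef]
      omega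
    have hxcong : ∀ B, b ^ 6 ∣ x B - x ∅ := by
      intro B
      have hδ0 : δ ∅ = 0 := by
        rw [← hδB]
        simp
      have h3 : x B - x ∅ = α * (A.eval (a + δ B) - A.eval a) := by
        rw [hxB, hxB, hδ0, add_zero]
        ring
      rw [h3]
      refine Dvd.dvd.mul_left ?_ _
      refine dvd_trans ?_ (sub_dvd_eval_sub (a + δ B) a A)
      rw [add_sub_cancel_left, ← hδB]
      exact ⟨μ * (∑ j ∈ B, t j) ^ 2, by ring⟩
    obtain ⟨D', hD'⟩ : ∃ D', D = D' + 1 := ⟨D - 1, by omega⟩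
    have hDn' : D * n = D' * n + n := by rw [hD', Nat.add_mul, one_mul]
    have hD1 : (D - 1) * n = D' * n := by rw [hD', Nat.add_sub_cancel]
    have hprod := core hp hv (k := D * (2 * D + 1 + 2) + 1) (D := D) (by omega) x b γ0
      (α.leadingCoeff * A.leadingCoeff.leadingCoeff) hγ0
      (mul_ne_zero (leadingCoeff_ne_zero.2 hα) (leadingCoeff_ne_zero.2 hl0)) hb hcx
      (α.natDegree + A.leadingCoeff.natDegree + D * n) (fun B => (hxt B).1) (fun B => (hxt B).2)
      hxcong (n - (H + Cδ)) (by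
        intro B
        have h3 := hxdiff B
        omega) (by omega) (by omega) (by
        have h3 : (2 * D + 1) * (n - (H + Cδ)) = (2 * D + 1) * n - (2 * D + 1) * (H + Cδ) :=
          Nat.mul_sub _ _ _
        rw [h3, Nat.add_mul, one_mul, mul_assoc]
        omega)
    -- the end
    have hend : ∀ B, (liou (α * (A.eval (a + δ B)) ^ 2 + c) : ℝ) =
        (liou α : ℝ) * (liou ((x B) ^ 2 + X * (C γ0 * b) ^ 2) : ℝ) := by
      intro B
      have h3 : (x B) ^ 2 + X * (C γ0 * b) ^ 2 = α * (α * (A.eval (a + δ B)) ^ 2 + c) := by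
        rw [hxB, mul_add, hce]
        have h4 : (α * A.eval (a + δ B) + e) ^ 2 + X * (C γ0 * b) ^ 2 =
            α * (α * A.eval (a + δ B) ^ 2) + (e ^ 2 + X * (C γ0 * b) ^ 2) +
              2 * (α * A.eval (a + δ B) * e) := by ring
        rw [h4, h2K, zero_mul, add_zero]
      rw [h3, Pool.Agent.H140.Q.FinM.liou_mul]
      have h4 := Pool.Agent.H140.Q.FinM.liou_self hα
      have h5 : (liou α : ℝ) * (liou α : ℝ) = 1 := by exact_mod_cast h4
      push_cast
      rw [← mul_assoc, h5, one_mul]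
    rw [Finset.prod_congr rfl fun B _ => hend B, Finset.prod_mul_distrib, hprod, mul_one,
      Finset.prod_const, Finset.card_univ]
    exact pm_pow (hpm α hα) (by omega)

end Pool.Agent.H140.MX
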