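import Pool.Agent.H140.MX.Stm
import Pool.Agent.H985.FC.StmFC

/-!
# Task MX-GM (helper876, for helper140): the inequality of Gowers, Cauchy and Schwarz for the monic
polynomials of degree `n`
-/

set_option autoImplicit false

namespace Pool.Agent.H140.MX

open Polynomial
open scoped Classical
open Pool.Agent.H694.Typ (Mn mem_Mn)
open Pool.Agent.H251.SP.TII (Pl mem_Pl card_Pl)

namespace GmL

variable {K : Type} [Field K] [Fintype K]

/-- the polynomials of degree `< n` form a finite type -/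
@[instance_reducible] noncomputable def fdl (n : ℕ) : Fintype (degreeLT K n) :=
  Fintype.ofEquiv (Fin n → K) (degreeLTEquiv K n).symm.toEquiv

attribute [local instance] fdl

lemma card_dl (n : ℕ) : Fintype.card (degreeLT K n) = Fintype.card K ^ n := by
  rw [Fintype.card_congr (degreeLTEquiv K n).toEquiv, Fintype.card_fun, Fintype.card_fin]

lemma sum_Mn {n : ℕ} (G : K[X] → ℝ) :
    ∑ a ∈ Mn K n, G a = ∑ u : degreeLT K n, G (X ^ n + (u : K[X])) := by
  symm
  refine Finset.sum_bij (fun u _ => X ^ n + (u : K[X])) ?_ ?_ ?_ ?_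
  · intro u _
    have hu := mem_degreeLT.1 u.2
    rw [mem_Mn]
    refine ⟨monic_X_pow_add hu, ?_⟩
    rw [natDegree_add_eq_left_of_degree_lt (by rw [degree_X_pow]; exact hu), natDegree_X_pow]
  · intro u _ v _ h
    exact Subtype.ext (add_left_cancel h)
  · intro a ha
    rw [mem_Mn] at ha
    obtain ⟨c, hc⟩ := Pool.Agent.H694.Typ.exists_mon ha.1 ha.2
    refine ⟨⟨Pool.Agent.H694.Typ.pol c, ?_⟩, Finset.mem_univ _, ?_⟩
    · rw [mem_degreeLT]
      exact Pool.Agent.H694.Typ.pol_degree c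
    · exact hc
  · intro u _
    rfl

lemma sum_pi {k M : ℕ} (H : (Fin k → K[X]) → ℝ) :
    ∑ t ∈ Fintype.piFinset (fun _ : Fin k => Pl K M), H t =
      ∑ t : Fin k → degreeLT K M, H (fun j => (t j : K[X])) := by
  symm
  refine Finset.sum_bij (fun t _ => fun j => (t j : K[X])) ?_ ?_ ?_ ?_
  · intro t _
    rw [Fintype.mem_piFinset]
    intro j
    rw [mem_Pl]
    exact mem_degreeLT.1 (t j).2
  · intro t _ s _ h
    funext j
    exact Subtype.ext (congrFun h j)
  · intro t ht
    rw [Fintype.mem_piFinset] at ht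
    exact ⟨fun j => ⟨t j, mem_degreeLT.2 (mem_Pl.1 (ht j))⟩, Finset.mem_univ _, rfl⟩
  · intro t _
    rfl

lemma deg_dir {n M : ℕ} {μ N t : K[X]} (hn : μ.natDegree + 2 * N.natDegree + 2 * M < n)
    (ht : t.degree < (M : WithBot ℕ)) : (μ * (N * t) ^ 2).degree < (n : WithBot ℕ) := by
  by_cases h0 : μ * (N * t) ^ 2 = 0
  · rw [h0, degree_zero]
    exact WithBot.bot_lt_coe _
  · rw [← natDegree_lt_iff_degree_lt h0]
    have h1 : t.natDegree ≤ M := by
      by_cases h2 : t = 0
      · rw [h2, natDegree_zero]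
        exact Nat.zero_le _
      · exact ((natDegree_lt_iff_degree_lt h2).2 ht).le
    have h3 : (μ * (N * t) ^ 2).natDegree ≤ μ.natDegree + 2 * (N.natDegree + t.natDegree) := by
      refine natDegree_mul_le.trans (Nat.add_le_add_left ?_ _)
      exact natDegree_pow_le.trans (Nat.mul_le_mul_left _ natDegree_mul_le)
    omega

/-- the direction `t ↦ μ (N t) ^ 2` -/
noncomputable def dir [CharP K 2] {n M : ℕ} {μ N : K[X]}
    (hn : μ.natDegree + 2 * N.natDegree + 2 * M < n) : degreeLT K M →+ degreeLT K n :=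
  AddMonoidHom.mk' (fun t => ⟨μ * (N * (t : K[X])) ^ 2,
    mem_degreeLT.2 (deg_dir hn (mem_degreeLT.1 t.2))⟩) (by
      intro a b
      apply Subtype.ext
      change μ * (N * ((a + b : degreeLT K M) : K[X])) ^ 2 =
        μ * (N * (a : K[X])) ^ 2 + μ * (N * (b : K[X])) ^ 2
      rw [Submodule.coe_add, mul_add, add_pow_char, mul_add])

lemma dir_sum [CharP K 2] {n M k : ℕ} {μ N : K[X]}
    (hn : μ.natDegree + 2 * N.natDegree + 2 * M < n) (t : Fin k → degreeLT K M)
    (A : Finset (Fin k)) :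
    ((∑ l ∈ A, dir (μ := μ) (N := N) hn (t l) : degreeLT K n) : K[X]) =
      μ * (N * ∑ j ∈ A, (t j : K[X])) ^ 2 := by
  rw [← map_sum]
  change μ * (N * ((∑ l ∈ A, t l : degreeLT K M) : K[X])) ^ 2 = _
  rw [Submodule.coe_sum]

end GmL

open GmL in
theorem gm (hg : Pool.Agent.H985.FC.S_gcs) : S_gm := by
  intro K _ _ _ k M μ N
  refine ⟨μ.natDegree + 2 * N.natDegree + 2 * M + 1, ?_⟩
  intro n hn F hF
  have hn' : μ.natDegree + 2 * N.natDegree + 2 * M < n := hn
  letI : ∀ m, Fintype (degreeLT K m) := fun m => GmL.fdl m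
  have h := hg (degreeLT K n) (degreeLT K M) (Fin k) (fun _ => dir (μ := μ) (N := N) hn')
    (fun u => F (X ^ n + (u : K[X]))) (fun u => hF _)
  rw [Fintype.card_fin, card_dl, card_dl, Nat.cast_pow, Nat.cast_pow] at h
  rw [sum_Mn, sum_pi]
  refine h.trans (le_of_eq ?_)
  congr 1
  refine Finset.sum_congr rfl fun t _ => ?_
  rw [sum_Mn]
  congr 2
  refine Finset.sum_congr rfl fun u _ => ?_
  refine Finset.prod_congr rfl fun A _ => ?_
  rw [Submodule.coe_add, dir_sum, add_assoc]

end Pool.Agent.H140.MX
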