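import Pool.Agent.H140.MX.Stm

/-!
# Task MX-SEP: the product of the translates of a separable polynomial
-/

set_option autoImplicit false

namespace Pool.Agent.H140.MX

open Polynomial
open scoped Classical

theorem sep_aeval {K : Type} [Field K] (f : K[X][X]) (a : K[X])
    (θ : AlgebraicClosure (RatFunc K)) : aeval θ (f.comp (X + C a)) =
      aeval (θ + algebraMap K[X] (AlgebraicClosure (RatFunc K)) a) f := by
  rw [aeval_comp]
  simp

theorem sep_comp {F : Type} [Field F] {g : F[X]} (h : g.Separable) (a : F) :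
    (g.comp (X + C a)).Separable := by
  obtain ⟨u, v, h⟩ := h
  refine ⟨u.comp (X + C a), v.comp (X + C a), ?_⟩
  rw [derivative_comp]
  have h1 := congrArg (fun p => p.comp (X + C a)) h
  simpa using h1

theorem sep_inj {K : Type} [Field K] :
    Function.Injective (algebraMap K[X] (AlgebraicClosure (RatFunc K))) := by
  rw [IsScalarTower.algebraMap_eq K[X] (RatFunc K) (AlgebraicClosure (RatFunc K))]
  exact (algebraMap (RatFunc K) (AlgebraicClosure (RatFunc K))).injective.comp
    (IsFractionRing.injective K[X] (RatFunc K))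

theorem sep_sq {R : Type} [CommRing R] [IsDomain R] [CharP R 2] {x y : R} (h : x ^ 2 = y ^ 2) :
    x = y := by
  have h1 : (x + y) ^ 2 = 0 := by
    rw [CharTwo.add_sq, h, CharTwo.add_self_eq_zero]
  have h2 : x + y = 0 := pow_eq_zero_iff (two_ne_zero) |>.1 h1
  exact CharTwo.add_eq_zero.1 h2

theorem sep_sum {R : Type} [CommRing R] [CharP R 2] {k : ℕ} (t : Fin k → R)
    (B B' : Finset (Fin k)) :
    ∑ j ∈ B, t j + ∑ j ∈ B', t j = ∑ j ∈ (B \ B') ∪ (B' \ B), t j := by
  have h1 := Finset.sum_inter_add_sum_sdiff B B' t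
  have h2 := Finset.sum_inter_add_sum_sdiff B' B t
  rw [Finset.inter_comm] at h2
  rw [Finset.sum_union (disjoint_sdiff_sdiff)]
  rw [← h1, ← h2]
  have h3 : ∑ j ∈ B ∩ B', t j + ∑ j ∈ B ∩ B', t j = 0 := CharTwo.add_self_eq_zero _
  linear_combination h3

theorem sep_deg {K : Type} [Field K] {f : K[X][X]} (hf : 0 < f.natDegree) (k : ℕ)
    (δ : Finset (Fin k) → K[X]) :
    0 < (∏ B : Finset (Fin k), f.comp (X + C (δ B))).natDegree := by
  have h1 : ∀ B, (f.comp (X + C (δ B))).natDegree = f.natDegree := by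
    intro B
    rw [natDegree_comp, natDegree_X_add_C, mul_one]
  have h2 : ∀ B ∈ (Finset.univ : Finset (Finset (Fin k))), f.comp (X + C (δ B)) ≠ 0 := by
    intro B _ h
    have h3 := h1 B
    rw [h, natDegree_zero] at h3
    omega
  rw [natDegree_prod _ _ h2]
  exact Finset.sum_pos (fun B _ => by rw [h1]; exact hf) ⟨∅, Finset.mem_univ _⟩

theorem sep : S_sep := by
  intro K _ _ _ f μ N k hf hsep hμ hN hS
  have hA := sep_inj (K := K)
  have : CharP (AlgebraicClosure (RatFunc K)) 2 :=
    charP_of_injective_ringHom hA 2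
  have hf0 : f ≠ 0 := by
    rintro rfl
    simp at hf
  set O := AlgebraicClosure (RatFunc K) with hO
  set φ : K[X] → O := fun t => algebraMap K[X] O (μ * (N * t) ^ 2) with hφ
  have hφi : Function.Injective φ := by
    intro t t' h
    have h1 : μ * (N * t) ^ 2 = μ * (N * t') ^ 2 := hA h
    have h2 : N * t = N * t' := sep_sq (mul_left_cancel₀ hμ h1)
    exact mul_left_cancel₀ hN h2
  have hφa : ∀ t t', φ t + φ t' = φ (t + t') := by
    intro t t'
    simp only [hφ]
    rw [← map_add, mul_add N, CharTwo.add_sq, mul_add]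
  set R : Finset O := (f.map (algebraMap K[X] O)).roots.toFinset with hR
  have hmem : ∀ θ : O, aeval θ f = 0 → θ ∈ R := by
    intro θ hθ
    rw [hR, Multiset.mem_toFinset, mem_roots ((Polynomial.map_ne_zero_iff hA).2 hf0), IsRoot.def,
      eval_map, ← aeval_def]
    exact hθ
  set D : Finset O := (R ×ˢ R).image (fun p => p.1 + p.2) with hD
  have hfin : (φ ⁻¹' (D : Set O)).Finite := D.finite_toSet.preimage hφi.injOn
  refine ⟨hfin.toFinset, fun t ht => ⟨sep_deg hf k _, ?_, ?_⟩⟩
  · rw [Polynomial.map_prod]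
    have hmap : ∀ B : Finset (Fin k),
        (f.comp (X + C (μ * (N * ∑ j ∈ B, t j) ^ 2))).map (algebraMap K[X] (RatFunc K)) =
        (f.map (algebraMap K[X] (RatFunc K))).comp
          (X + C (algebraMap K[X] (RatFunc K) (μ * (N * ∑ j ∈ B, t j) ^ 2))) := by
      intro B
      rw [Polynomial.map_comp, Polynomial.map_add, map_X, map_C]
    refine separable_prod ?_ ?_
    · intro B B' hBB
      show IsCoprime _ _
      rw [isCoprime_iff_aeval_ne_zero_of_isAlgClosed (RatFunc K) O]
      intro θ
      by_contra hcon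
      push Not at hcon
      obtain ⟨h1, h2⟩ := hcon
      rw [aeval_map_algebraMap, sep_aeval] at h1 h2
      have h3 := hmem _ h1
      have h4 := hmem _ h2
      have h5 : φ (∑ j ∈ B, t j) + φ (∑ j ∈ B', t j) ∈ D := by
        rw [hD, Finset.mem_image]
        refine ⟨(_, _), Finset.mem_product.2 ⟨h3, h4⟩, ?_⟩
        show θ + φ (∑ j ∈ B, t j) + (θ + φ (∑ j ∈ B', t j)) = _
        have h6 : θ + θ = 0 := CharTwo.add_self_eq_zero θ
        linear_combination h6
      rw [hφa, sep_sum] at h5
      refine ht (B \ B' ∪ B' \ B) ?_ ?_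
      · rw [Finset.nonempty_iff_ne_empty]
        intro h7
        apply hBB
        rw [Finset.union_eq_empty, Finset.sdiff_eq_empty_iff_subset,
          Finset.sdiff_eq_empty_iff_subset] at h7
        exact Finset.Subset.antisymm h7.1 h7.2
      · rw [Set.Finite.mem_toFinset]
        exact h5
    · intro B
      rw [hmap]
      exact sep_comp hsep _
  · intro θ hθ
    rw [map_prod, Finset.prod_eq_zero_iff] at hθ
    obtain ⟨B, _, hB⟩ := hθ
    rw [sep_aeval] at hB
    obtain ⟨s, σ, h1, h2⟩ := hS _ hB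
    refine ⟨s + algebraMap K[X] (RatFunc K) (μ * (μ * (N * ∑ j ∈ B, t j) ^ 2)), σ, h1, ?_⟩
    rw [h2, map_add, ← IsScalarTower.algebraMap_apply K[X] (RatFunc K),
      map_mul (algebraMap K[X] (AlgebraicClosure (RatFunc K))) μ (μ * _), mul_add]
    abel

end Pool.Agent.H140.MX
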