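import Pool.Agent.H140.MX.Stm
import Pool.Agent.H604.LD.Deg

/-!
# Task MX-VAN: the phase at infinity has bounded degree (helper168, for helper140)
-/

set_option autoImplicit false

namespace Pool.Agent.H140.MX

open Polynomial
open scoped Classical
open Pool.Agent.H985.Chow (mob lc)
open Pool.Agent.H604.LD
open Pool.Agent.H604.LD.DegL

namespace VanL

lemma geom {F : Type} [Field F] {D v E : F} (hD : D ≠ 0) (hE : E ≠ 0) (h : E = D - v) (m : ℕ) :
    1 / E = ∑ i ∈ Finset.range m, v ^ i / D ^ (i + 1) + v ^ m / (D ^ m * E) := by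
  induction m with
  | zero => simp
  | succ m ih =>
    rw [Finset.sum_range_succ, ih]
    have h1 : v ^ m / (D ^ m * E) = v ^ m / D ^ (m + 1) + v ^ (m + 1) / (D ^ (m + 1) * E) := by
      have h2 : v = D - E := by rw [h]; ring
      rw [div_add_div _ _ (pow_ne_zero _ hD) (mul_ne_zero (pow_ne_zero _ hD) hE),
        div_eq_div_iff (mul_ne_zero (pow_ne_zero _ hD) hE)
          (mul_ne_zero (pow_ne_zero _ hD) (mul_ne_zero (pow_ne_zero _ hD) hE))]
      have h3 : v ^ (m + 1) = v ^ m * (D - E) := by rw [pow_succ, ← h2]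
      rw [h3]
      ring
    rw [h1]
    ring

lemma cdeg_derivative {K : Type} [Field K] {k D : ℕ} {y : Finset (Fin k) → K[X]} (h : CDeg D y) :
    CDeg D (fun A => derivative (y A)) := by
  intro B hB
  have h1 := h B hB
  rw [← derivative_sum, h1, derivative_zero]

lemma cdeg_pow (h : S_cd) {R : Type} [CommRing R] [CharP R 2] {k D : ℕ} {v : Finset (Fin k) → R}
    (hv : CDeg D v) (i : ℕ) : CDeg (i * D) (fun A => v A ^ i) := by
  obtain ⟨c0, c1, cm, ca, cmul, cs⟩ := h R k
  induction i with
  | zero =>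
    have e : (fun A : Finset (Fin k) => v A ^ 0) = fun _ => (1 : R) := by
      funext A
      exact pow_zero _
    rw [e, zero_mul]
    exact c0 1
  | succ i ih =>
    have e : (fun A : Finset (Fin k) => v A ^ (i + 1)) = fun A => v A ^ i * v A := by
      funext A
      exact pow_succ _ _
    rw [e, add_mul, one_mul]
    exact cmul _ _ _ _ ih hv

end VanL

open VanL in
/-- **Task MX-VAN.** -/
theorem van (h : S_cd) : S_van := by
  intro K _ _ k D m G d b y hb hy hc hG hm hk
  have hchar : CharP K[X] 2 := inferInstance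
  rcases Nat.eq_zero_or_pos d with hd0 | hd0
  · -- degree zero
    apply Finset.sum_eq_zero
    intro A _
    have h1 : y A = 1 := by
      have := (hy A).1
      exact this.natDegree_eq_zero.1 ((hy A).2.trans hd0)
    rw [h1, derivative_one, zero_pow (by norm_num), mul_zero]
    unfold lc
    simp
  obtain ⟨c0, c1, cm, ca, cmul, cs⟩ := h K[X] k
  set P : K[X] := y ∅ * b ^ 2 with hP
  set v : Finset (Fin k) → K[X] := fun A => (y ∅ + y A) * b ^ 2 with hv
  set N : Finset (Fin k) → K[X] := fun A => X * derivative (y A) ^ 3 with hN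
  have h2 : (2 : K[X]) = 0 := by
    have := CharP.cast_eq_zero K[X] 2
    exact_mod_cast this
  have hEA : ∀ A, y A * b ^ 2 = P - v A := by
    intro A
    rw [hP, hv]
    have : y A * b ^ 2 = y ∅ * b ^ 2 - (y ∅ + y A) * b ^ 2 + 2 * (y A * b ^ 2) := by ring
    rw [this, h2]
    ring
  -- cube degrees
  have hcv : CDeg D v := by
    have e1 := ca D (fun _ => y ∅) y (cm 0 D _ (c0 (y ∅)) (Nat.zero_le D)) hc
    have e2 := cmul D 0 _ _ e1 (c0 (b ^ 2))
    exact e2
  have hcN : CDeg (D + D + D) N := by
    have e1 := cdeg_derivative hc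
    have e2 := cmul _ _ _ _ (cmul _ _ _ _ e1 e1) e1
    have e3 := cmul _ _ _ _ (c0 (X : K[X])) e2
    rw [zero_add] at e3
    have e4 : N = fun A => X * (derivative (y A) * derivative (y A) * derivative (y A)) := by
      funext A
      rw [hN]
      ring
    rw [e4]
    exact e3
  have hzero : ∀ i ∈ Finset.range m, ∑ A : Finset (Fin k), N A * v A ^ i = 0 := by
    intro i hi
    rw [Finset.mem_range] at hi
    refine cs _ _ (cmul _ _ _ _ hcN (cdeg_pow h hcv i)) ?_
    have : (i + 3) * D ≤ (m + 2) * D := Nat.mul_le_mul_right D (by omega)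
    have e : D + D + D + i * D = (i + 3) * D := by ring
    rw [e]
    have e' : (m + 2) * D = D * (m + 2) := mul_comm _ _
    omega
  -- residues
  have hPm : P.Monic := (hy ∅).1.mul (hb.pow 2)
  have hP0 : rf P ≠ 0 := rf_ne hPm.ne_zero
  have hAm : ∀ A, (y A * b ^ 2).Monic := fun A => (hy A).1.mul (hb.pow 2)
  have hA0 : ∀ A, rf (y A * b ^ 2) ≠ 0 := fun A => rf_ne (hAm A).ne_zero
  have hres : ∀ A, lc (y A * b ^ 2) (X * derivative (y A) ^ 3) =
      res (∑ i ∈ Finset.range m, rf (N A * v A ^ i) / rf (P ^ (i + 1)) +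
        rf (N A * v A ^ m) / rf (P ^ m * (y A * b ^ 2))) := by
    intro A
    rw [← res_div (hAm A)]
    congr 1
    have h3 := geom hP0 (hA0 A) (v := rf (v A)) (by rw [hEA, rf_sub]) m
    rw [div_eq_mul_one_div, h3, mul_add, Finset.mul_sum]
    congr 1
    · refine Finset.sum_congr rfl fun i _ => ?_
      rw [rf_mul (N A), rf_pow, rf_pow]
      ring
    · rw [rf_mul (N A), rf_pow, rf_mul (P ^ m), rf_pow]
      ring
  rw [Finset.sum_congr rfl fun A _ => hres A, ← res_sum, Finset.sum_add_distrib, Finset.sum_comm]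
  have hmain : ∑ i ∈ Finset.range m, ∑ A : Finset (Fin k), rf (N A * v A ^ i) / rf (P ^ (i + 1)) = 0 := by
    apply Finset.sum_eq_zero
    intro i hi
    rw [← Finset.sum_div]
    have e : ∑ A : Finset (Fin k), rf (N A * v A ^ i) = rf (∑ A : Finset (Fin k), N A * v A ^ i) := by
      unfold rf
      rw [map_sum]
    rw [e, hzero i hi, rf_zero, zero_div]
  rw [hmain, zero_add]
  apply res_eq_zero
  apply Le.sum
  intro A _
  apply Le.div ((hPm.pow m).mul (hAm A)).ne_zero
  have hbd : (b ^ 2).natDegree = 2 * b.natDegree := hb.natDegree_pow 2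
  have hPd : P.natDegree = d + 2 * b.natDegree := by
    rw [hP, (hy ∅).1.natDegree_mul (hb.pow 2), (hy ∅).2, hbd]
  have hAd : (y A * b ^ 2).natDegree = d + 2 * b.natDegree := by
    rw [(hy A).1.natDegree_mul (hb.pow 2), (hy A).2, hbd]
  have hNd : (N A).natDegree ≤ 1 + 3 * (d - 1) := by
    have e1 : (derivative (y A)).natDegree ≤ d - 1 := by
      have := natDegree_derivative_le (y A)
      rw [(hy A).2] at this
      exact this
    have e2 : (derivative (y A) ^ 3).natDegree ≤ 3 * (d - 1) :=
      natDegree_pow_le.trans (Nat.mul_le_mul_left 3 e1)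
    have e3 : (N A).natDegree ≤ (X : K[X]).natDegree + (derivative (y A) ^ 3).natDegree :=
      natDegree_mul_le
    rw [natDegree_X] at e3
    omega
  have hvd : (v A).natDegree + G ≤ d + 2 * b.natDegree := by
    have e1 : y ∅ + y A = y A - y ∅ + 2 * y ∅ := by ring
    have e2 : v A = (y A - y ∅) * b ^ 2 := by
      rw [hv]
      simp only
      rw [e1, h2]
      ring
    have e3 : (v A).natDegree ≤ (y A - y ∅).natDegree + (b ^ 2).natDegree := by
      rw [e2]
      exact natDegree_mul_le
    have e4 := hG A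
    omega
  have hNv : (N A * v A ^ m).natDegree ≤ (1 + 3 * (d - 1)) + m * (v A).natDegree := by
    have e1 : (N A * v A ^ m).natDegree ≤ (N A).natDegree + (v A ^ m).natDegree := natDegree_mul_le
    have e2 : (v A ^ m).natDegree ≤ m * (v A).natDegree := natDegree_pow_le
    omega
  have hden : (P ^ m * (y A * b ^ 2)).natDegree = (m + 1) * (d + 2 * b.natDegree) := by
    rw [(hPm.pow m).natDegree_mul (hAm A), hPm.natDegree_pow, hPd, hAd]
    ring
  rw [hden]
  have h5 : m * (v A).natDegree + m * G ≤ m * (d + 2 * b.natDegree) := by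
    rw [← mul_add]
    exact Nat.mul_le_mul_left m hvd
  have h6 : (N A * v A ^ m).natDegree + 2 ≤ (m + 1) * (d + 2 * b.natDegree) := by
    have e : (m + 1) * (d + 2 * b.natDegree) = m * (d + 2 * b.natDegree) + (d + 2 * b.natDegree) := by
      ring
    rw [e]
    omega
  omega

end Pool.Agent.H140.MX
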