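import Mathlib
import Pool.Agent.H140.MX.Fin
import Pool.Agent.H140.MX.Cd
import Pool.Agent.H140.MX.Van
import Pool.Agent.H140.MX.Flat
import Pool.Agent.H140.MX.Gm
import Pool.Agent.H140.MX.Sep
import Pool.Agent.H140.MX.Cnt
import Pool.Agent.H524.LD.ParInfG
import Pool.Agent.H985.FC.Gcs

/-!
# Mixed Chowla over `F_q[X]`, `q` even (helper140): the theorems
-/

set_option autoImplicit false

namespace Pool.Agent.H140.MX

theorem s_gen : S_gen := gen (gm Pool.Agent.H914.FC.gcs) sep cnt

theorem s_flat : S_flat := flat Pool.Agent.H524.LD.s_parinfg cd (van cd)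

theorem s_mix : S_mix := mix s_gen s_flat

end Pool.Agent.H140.MX
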